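import Mathlib
import Pool.Agent.H932R7.TTR

set_option autoImplicit false

/-!
# Placing some of the points in a corner

If the points with multiplicities `w` impose independent conditions on the monomials of a corner
`T` of `M`, then for some part `R` of the corner, with as many elements as there are conditions,
the ranks for the points with multiplicities `w'` on `M \ R` give ranks for all the points on `M`.
-/

namespace Pool.Agent.W608

open Polynomial Pool.Agent.H932R2 Pool.Agent.H932R3 Pool.Agent.H932R7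

/-- A basis of maximal weight. -/
theorem exists_basis_set {K W : Type*} [Field K] [AddCommGroup W] [Module K W]
    [FiniteDimensional K W] {β : Type*} [DecidableEq β] (e : β → W) (T : Finset β)
    (hspan : Submodule.span K (e '' (↑T : Set β)) = ⊤) (α : β → ℕ)
    (hα : Set.InjOn α (↑T : Set β)) :
    ∃ R ⊆ T, R.card = Module.finrank K W ∧ Submodule.span K (e '' (↑R : Set β)) = ⊤ ∧
      ∀ s ∈ T, s ∉ R →
        e s ∈ Submodule.span K (e '' (↑(R.filter fun r => α s < α r) : Set β)) := by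
  classical
  have htop : ∀ R : Finset β, LinearIndepOn K e (↑R : Set β) → R.card = Module.finrank K W →
      Submodule.span K (e '' (↑R : Set β)) = ⊤ := by
    intro R h1 h2
    have h3 := LinearIndependent.span_eq_top_of_card_eq_finrank' h1.linearIndependent
      (by rw [← h2]; simp)
    rw [← h3]
    congr 1
    ext x
    simp
  obtain ⟨𝓑, h𝓑⟩ : ∃ 𝓑 : Finset (Finset β), 𝓑 = T.powerset.filter
    (fun R : Finset β => LinearIndepOn K e (↑R : Set β) ∧ R.card = Module.finrank K W) := ⟨_, rfl⟩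
  have hne : 𝓑.Nonempty := by
    obtain ⟨b, hbT, -, hsp, hli⟩ := exists_linearIndepOn_extension
      (linearIndepOn_empty K e) (Set.empty_subset (↑T : Set β))
    refine ⟨T.filter (· ∈ b), ?_⟩
    have hb : (↑(T.filter (· ∈ b)) : Set β) = b := by
      ext x
      simp only [Finset.coe_filter, Set.mem_ofPred_eq]
      exact ⟨fun h => h.2, fun h => ⟨hbT h, h⟩⟩
    rw [h𝓑, Finset.mem_filter, Finset.mem_powerset, hb]
    refine ⟨Finset.filter_subset _ _, hli, ?_⟩
    have h1 : Submodule.span K (e '' b) = ⊤ := by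
      rw [eq_top_iff, ← hspan, Submodule.span_le]
      exact hsp
    rw [← hb] at h1 hli
    have h2 := finrank_span_eq_card hli.linearIndependent
    have h3 : Set.range (fun x : (↑(T.filter (· ∈ b)) : Set β) => e x) =
        e '' (↑(T.filter (· ∈ b)) : Set β) := by
      ext x
      simp
    rw [h3, h1, finrank_top] at h2
    rw [h2]
    simp
  obtain ⟨R, hR, hmax⟩ := Finset.exists_max_image 𝓑 (fun R => ∑ r ∈ R, α r) hne
  rw [h𝓑, Finset.mem_filter, Finset.mem_powerset] at hR
  obtain ⟨hRT, hRli, hRc⟩ := hR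
  refine ⟨R, hRT, hRc, htop R hRli hRc, fun s hs hsR => ?_⟩
  have hes : e s ∈ Submodule.span K (e '' (↑R : Set β)) := by
    rw [htop R hRli hRc]
    trivial
  rw [Submodule.mem_span_image_finset_iff_exists_fun'] at hes
  obtain ⟨c, hc⟩ := hes
  have key : ∀ r ∈ R, c r ≠ 0 → α s < α r := by
    intro r hr hcr
    by_contra hlt
    have hrs : r ≠ s := fun h => hsR (h ▸ hr)
    have h1 : α r < α s := by
      refine lt_of_le_of_ne (not_lt.1 hlt) fun h => hrs ?_
      exact hα (hRT hr) hs h
    have h2 : e s ∉ Submodule.span K (e '' (↑(R.erase r) : Set β)) := by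
      intro h3
      have h4 := hRli.notMem_span (i := r) (by exact_mod_cast hr)
      apply h4
      have h5 : (↑R : Set β) \ {r} = ↑(R.erase r) := by simp
      rw [h5]
      rw [← Finset.add_sum_erase R (fun i => c i • e i) hr] at hc
      have h6 : e r = (c r)⁻¹ • (e s - ∑ x ∈ R.erase r, c x • e x) := by
        rw [← hc, add_sub_cancel_right, smul_smul, inv_mul_cancel₀ hcr, one_smul]
      rw [h6]
      refine Submodule.smul_mem _ _ (Submodule.sub_mem _ h3 (Submodule.sum_mem _ fun x hx => ?_))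
      exact Submodule.smul_mem _ _ (Submodule.subset_span ⟨x, by exact_mod_cast hx, rfl⟩)
    have h7 : s ∉ R.erase r := fun h => hsR (Finset.mem_of_mem_erase h)
    have h8 : insert s (R.erase r) ∈ 𝓑 := by
      rw [h𝓑, Finset.mem_filter, Finset.mem_powerset]
      refine ⟨?_, ?_, ?_⟩
      · intro x hx
        rcases Finset.mem_insert.1 hx with rfl | hx
        · exact hs
        · exact hRT (Finset.mem_of_mem_erase hx)
      · rw [Finset.coe_insert]
        refine LinearIndepOn.insert (hRli.mono ?_) h2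
        intro x hx
        exact_mod_cast Finset.mem_of_mem_erase (by exact_mod_cast hx)
      · rw [Finset.card_insert_of_notMem h7, Finset.card_erase_of_mem hr, ← hRc]
        have : 0 < R.card := Finset.card_pos.2 ⟨r, hr⟩
        omega
    have h9 := hmax _ h8
    rw [Finset.sum_insert h7, ← Finset.add_sum_erase R α hr] at h9
    omega
  rw [← hc]
  refine Submodule.sum_mem _ fun r hr => ?_
  by_cases h : c r = 0
  · rw [h, zero_smul]
    exact Submodule.zero_mem _
  · refine Submodule.smul_mem _ _ (Submodule.subset_span ⟨r, ?_, rfl⟩)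
    rw [Finset.coe_filter]
    exact ⟨hr, key r hr h⟩

/-- Transfer of ranks along a one-parameter family of substitutions, to an arbitrary space. -/
theorem transferP {K : Type*} [Field K] [Infinite K] {𝓘 : Set (Ideal K[X][X])}
    {P : Submodule K K[X][X]} {M' : Set (ℕ × ℕ)}
    {n : ℕ} (B : ℕ) (ψ : K → K[X][X] →ₐ[K] K[X][X])
    (hI : ∀ t : K, t ≠ 0 → ∀ J ∈ 𝓘, ∃ J' ∈ 𝓘, J' ≤ J.comap (ψ t))
    (hM : ∀ p ∈ M', ∃ w : ℕ → K[X][X], w 0 = mon K p ∧
      ∀ t : K, t ≠ 0 → ∑ k ∈ Finset.range (B + 1), t ^ k • w k ∈ P.map (ψ t).toLinearMap)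
    (hR : RkS 𝓘 M' n) : ∃ J ∈ 𝓘, ∃ v : Fin n → K[X][X], (∀ i, v i ∈ P) ∧
      ∀ c : Fin n → K, ∑ i, c i • v i ∈ J → ∀ i, c i = 0 := by
  classical
  obtain ⟨J, hJ, v, hv, hli⟩ := hR
  have hgood : ∀ f ∈ mspan K M', ∃ w : ℕ → K[X][X], w 0 = f ∧
      ∀ t : K, t ≠ 0 → ∑ k ∈ Finset.range (B + 1), t ^ k • w k ∈
        P.map (ψ t).toLinearMap := by
    intro f hf
    refine Submodule.span_induction ?_ ?_ ?_ ?_ hf
    · rintro _ ⟨p, hp, rfl⟩
      exact hM p hp
    · exact ⟨fun _ => 0, rfl, fun t _ => by simp⟩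
    · rintro a b _ _ ⟨wa, ha0, ha⟩ ⟨wb, hb0, hb⟩
      refine ⟨fun k => wa k + wb k, by simp only [ha0, hb0], fun t ht => ?_⟩
      have := Submodule.add_mem _ (ha t ht) (hb t ht)
      rw [← Finset.sum_add_distrib] at this
      simpa only [smul_add] using this
    · rintro c a _ ⟨wa, ha0, ha⟩
      refine ⟨fun k => c • wa k, by simp only [ha0], fun t ht => ?_⟩
      have := Submodule.smul_mem _ c (ha t ht)
      rw [Finset.smul_sum] at this
      simpa only [smul_comm c] using this
  choose w hw0 hw using fun i => hgood (v i) (hv i)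
  obtain ⟨W, hW⟩ : ∃ W : Fin n → ℕ → K[X][X] ⧸ J,
      ∀ i k, W i k = Ideal.Quotient.mkₐ K J (w i k) := ⟨_, fun _ _ => rfl⟩
  have h0 : LinearIndependent K (fun j => W j 0) := by
    simp only [hW, hw0]
    exact (li_mk_iff _ _).2 hli
  obtain ⟨t, ht, hli'⟩ := exists_ne_zero_li B W h0
  have hli'' : ∀ c : Fin n → K, ∑ i, c i • (∑ k ∈ Finset.range (B + 1), t ^ k • w i k) ∈
      J → ∀ i, c i = 0 := by
    intro c hc
    refine Fintype.linearIndependent_iff.1 hli' c ?_
    have h1 : Ideal.Quotient.mkₐ K J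
        (∑ i, c i • (∑ k ∈ Finset.range (B + 1), t ^ k • w i k)) = 0 := by
      rw [Ideal.Quotient.mkₐ_eq_mk, Ideal.Quotient.eq_zero_iff_mem]
      exact hc
    rw [← h1, map_sum]
    refine Finset.sum_congr rfl fun i _ => ?_
    rw [map_smul, map_sum]
    congr 1
    exact Finset.sum_congr rfl fun k _ => by rw [hW, map_smul]
  choose u hu hu' using fun i => Submodule.mem_map.1 (hw i t ht)
  obtain ⟨J', hJ', hle⟩ := hI t ht J hJ
  refine ⟨J', hJ', u, hu, fun c hc => hli'' c ?_⟩
  have h1 := hle hc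
  rw [Ideal.mem_comap, map_sum] at h1
  convert h1 using 2 with i
  rw [map_smul, ← hu' i]
  rfl

section scaling

variable {K : Type} [Field K]

/-- The substitution `x ↦ t ^ p x`, `y ↦ t y`. -/
noncomputable def scal (p : ℕ) (t : K) : K[X][X] →ₐ[K] K[X][X] :=
  ((Polynomial.aeval (R := K[X]) (C (C t) * X : K[X][X])).restrictScalars K).comp
    (Polynomial.mapAlgHom (Polynomial.aeval (C (t ^ p) * X : K[X])))

theorem scal_C (p : ℕ) (t : K) (a : K[X]) : scal p t (C a) = C (a.comp (C (t ^ p) * X)) := by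
  simp [scal, Polynomial.aeval_def, Polynomial.comp, Polynomial.algebraMap_eq]

theorem scal_X (p : ℕ) (t : K) : scal p t (X : K[X][X]) = C (C t) * X := by
  simp [scal]

theorem scal_mon (p : ℕ) (t : K) (x : ℕ × ℕ) :
    scal p t (mon K x) = t ^ (p * x.1 + x.2) • mon K x := by
  obtain ⟨i, l⟩ := x
  rw [mon, map_mul, map_pow (scal p t), scal_C, scal_X, pow_comp, X_comp]
  simp only [Algebra.smul_def, Polynomial.algebraMap_apply, Algebra.algebraMap_self,
    RingHom.id_apply, pow_add, pow_mul, mul_pow, map_mul, map_pow]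
  ring

theorem cIdeal_scal (c : K) (γ : K[X]) (m p : ℕ) (t : K) (ht : t ≠ 0) :
    cIdeal (fun _ : Fin 1 => t ^ p * c) (C t * γ.comp (C (t ^ p)⁻¹ * X)) m ≤
      (cIdeal (fun _ : Fin 1 => c) γ m).comap (scal p t) := by
  have htp : t ^ p ≠ 0 := pow_ne_zero _ ht
  unfold cIdeal
  rw [← Ideal.map_le_iff_le_comap, Ideal.map_pow]
  refine Ideal.pow_right_mono ?_ m
  rw [Ideal.map_span, Ideal.span_le]
  rintro _ ⟨f, hf, rfl⟩
  rcases hf with rfl | hf
  · have : scal p t (X - C (C t * γ.comp (C (t ^ p)⁻¹ * X)) : K[X][X]) =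
        C (C t) * (X - C γ) := by
      rw [map_sub, scal_C, scal_X, mul_comp, C_comp, comp_assoc]
      have h1 : (C (t ^ p)⁻¹ * X : K[X]).comp (C (t ^ p) * X) = X := by
        simp only [mul_comp, C_comp, X_comp]
        rw [← mul_assoc, ← C_mul, inv_mul_cancel₀ htp, C_1, one_mul]
      rw [h1, comp_X, C_mul]
      ring
    change scal p t (X - C (C t * γ.comp (C (t ^ p)⁻¹ * X)) : K[X][X]) ∈ _
    rw [this]
    exact Ideal.mul_mem_left _ _ (Ideal.subset_span (Or.inl rfl))
  · rw [Set.mem_singleton_iff] at hf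
    subst hf
    have : scal p t (C (rootPoly fun _ : Fin 1 => t ^ p * c)) =
        C (C (t ^ p)) * C (rootPoly fun _ : Fin 1 => c) := by
      rw [scal_C, ← C_mul]
      congr 1
      simp only [rootPoly, Finset.univ_unique, Finset.prod_singleton, sub_comp, X_comp, C_comp]
      rw [C_mul]
      ring
    change scal p t (C (rootPoly fun _ : Fin 1 => t ^ p * c)) ∈ _
    rw [this]
    exact Ideal.mul_mem_left _ _ (Ideal.subset_span (Or.inr rfl))

theorem PF_scal {ι : Type} (w : ι → ℕ) (p : ℕ) (t : K) (ht : t ≠ 0) :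
    ∀ J ∈ PF K w, ∃ J' ∈ PF K w, J' ≤ J.comap (scal p t) := by
  rintro J ⟨c, γ, rfl⟩
  refine ⟨vIdeal 1 w (fun a => t ^ p * c a) (fun a => C t * (γ a).comp (C (t ^ p)⁻¹ * X)),
    ⟨_, _, rfl⟩, ?_⟩
  intro f hf
  rw [Ideal.mem_comap]
  unfold vIdeal at hf ⊢
  rw [Ideal.mem_iInf] at hf ⊢
  intro a
  exact Ideal.mem_comap.1 (cIdeal_scal (c a) (γ a) (w a) p t ht (hf a))

end scaling

/-- Placing the points with multiplicities `w` in the corner `T`. -/
theorem comb {K : Type} [Field K] [Infinite K] {ι ι' : Type} [Fintype ι]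
    (w : ι → ℕ) (w' : ι' → ℕ) (M T : Finset (ℕ × ℕ)) (p : ℕ) (hTM : T ⊆ M)
    (hα : Set.InjOn (fun x : ℕ × ℕ => p * x.1 + x.2) (↑M : Set (ℕ × ℕ)))
    (hup : ∀ x ∈ M, x ∉ T → ∀ y ∈ T, p * x.1 + x.2 < p * y.1 + y.2)
    (h1 : RkS (PF K w) (↑T : Set (ℕ × ℕ)) (Aw w)) (N : ℕ)
    (h2 : ∀ R ⊆ T, R.card = Aw w → RkS (PF K w') ((↑M : Set (ℕ × ℕ)) \ (↑R : Set (ℕ × ℕ))) N) :
    RkS (PF K (Sum.elim w w')) (↑M : Set (ℕ × ℕ)) (Aw w + N) := by
  classical
  obtain ⟨J, ⟨c, γ, rfl⟩, v, hv, hli⟩ := h1
  obtain ⟨α, hαd⟩ : ∃ α : ℕ × ℕ → ℕ, α = fun x : ℕ × ℕ => p * x.1 + x.2 := ⟨_, rfl⟩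
  have hαa : ∀ x, α x = p * x.1 + x.2 := fun x => by rw [hαd]
  rw [← hαd] at hα
  simp only [← hαa] at hup
  obtain ⟨E, hE⟩ : ∃ E, E = condMapV 1 w c γ := ⟨_, rfl⟩
  have hfin : Module.finrank K ((Σ a : ι, EE 1 (w a)) → K) = Aw w := by
    rw [Module.finrank_fintype_fun_eq_card, Fintype.card_sigma, ← TRh.Aw_eq]
    exact Finset.sum_congr rfl fun a _ => Fintype.card_coe _
  have hspan : Submodule.span K ((fun x => E (mon K x)) '' (↑T : Set (ℕ × ℕ))) = ⊤ := by
    have h3 : LinearIndependent K (fun i => E (v i)) := by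
      rw [Fintype.linearIndependent_iff]
      intro b hb
      apply hli b
      rw [mem_vIdeal_iff, map_sum, ← hE, ← hb]
      exact Finset.sum_congr rfl fun i _ => map_smul _ _ _
    have h4 := LinearIndependent.span_eq_top_of_card_eq_finrank' h3
      (by rw [hfin, Fintype.card_fin])
    rw [eq_top_iff, ← h4, Submodule.span_le]
    rintro _ ⟨i, rfl⟩
    have h5 := Submodule.mem_map_of_mem (f := E) (hv i)
    unfold mspan at h5
    rw [Submodule.map_span, ← Set.image_comp] at h5
    exact h5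
  obtain ⟨R, hRT, hRc, hRtop, hRs⟩ := exists_basis_set (fun x => E (mon K x)) T hspan α
    (hα.mono (by exact_mod_cast hTM))
  rw [hfin] at hRc
  have hRs' : ∀ x ∈ M, x ∉ R → E (mon K x) ∈ Submodule.span K
      ((fun x => E (mon K x)) '' (↑(R.filter fun r => α x < α r) : Set (ℕ × ℕ))) := by
    intro x hx hxR
    by_cases hxT : x ∈ T
    · exact hRs x hxT hxR
    · have h3 : R.filter (fun r => α x < α r) = R := by
        rw [Finset.filter_true_of_mem]
        intro r hr
        exact hup x hx hxT r (hRT hr)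
      rw [h3, hRtop]
      trivial
  obtain ⟨P, hP⟩ : ∃ P : Submodule K K[X][X], P = mspan K (↑M : Set (ℕ × ℕ)) ⊓
    Submodule.restrictScalars K (vIdeal 1 w c γ) := ⟨_, rfl⟩
  obtain ⟨B, hB⟩ : ∃ B, B = M.sup α := ⟨_, rfl⟩
  obtain ⟨J', ⟨c', γ', rfl⟩, u, hu, hli'⟩ := transferP (𝓘 := PF K w') (P := P)
    (M' := (↑M : Set (ℕ × ℕ)) \ (↑R : Set (ℕ × ℕ))) (n := N) B (scal p)
    (fun t ht J hJ => PF_scal w' p t ht J hJ) (by
      rintro x ⟨hxM, hxR⟩
      have hxM' : x ∈ M := hxM
      have hxR' : x ∉ R := hxR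
      have h3 := hRs' x hxM' hxR'
      rw [Submodule.mem_span_image_finset_iff_exists_fun'] at h3
      obtain ⟨b, hb⟩ := h3
      obtain ⟨S, hS⟩ : ∃ S, S = R.filter fun r => α x < α r := ⟨_, rfl⟩
      rw [← hS] at hb
      have hSlt : ∀ r ∈ S, α x < α r := fun r hr => by
        rw [hS] at hr
        exact (Finset.mem_filter.1 hr).2
      have hSM : ∀ r ∈ S, r ∈ M := fun r hr => by
        rw [hS] at hr
        exact hTM (hRT (Finset.mem_filter.1 hr).1)
      obtain ⟨f, hf⟩ : ∃ f, f = mon K x - ∑ r ∈ S, b r • mon K r := ⟨_, rfl⟩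
      have hfP : f ∈ P := by
        rw [hP, Submodule.mem_inf]
        constructor
        · rw [hf]
          refine Submodule.sub_mem _ (Submodule.subset_span ⟨x, hxM, rfl⟩)
            (Submodule.sum_mem _ fun r hr => Submodule.smul_mem _ _
              (Submodule.subset_span ⟨r, ?_, rfl⟩))
          exact_mod_cast hSM r hr
        · rw [Submodule.restrictScalars_mem, mem_vIdeal_iff, ← hE, hf, map_sub, map_sum, sub_eq_zero]
          simp only [map_smul]
          exact hb.symm
      refine ⟨fun k => (if k = 0 then mon K x else 0) -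
        ∑ r ∈ S, if α r - α x = k then b r • mon K r else 0, ?_, fun t ht => ?_⟩
      · beta_reduce
        rw [if_pos rfl, Finset.sum_eq_zero, sub_zero]
        intro r hr
        have := hSlt r hr
        rw [if_neg (by omega)]
      · refine Submodule.mem_map.2 ⟨(t ^ α x)⁻¹ • f, Submodule.smul_mem _ _ hfP, ?_⟩
        have hta : t ^ α x ≠ 0 := pow_ne_zero _ ht
        have h4 : (scal p t).toLinearMap f =
            t ^ α x • mon K x - ∑ r ∈ S, (t ^ α r * b r) • mon K r := by
          rw [hf, map_sub, map_sum]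
          congr 1
          · rw [AlgHom.toLinearMap_apply, scal_mon, hαa]
          · refine Finset.sum_congr rfl fun r hr => ?_
            rw [map_smul, AlgHom.toLinearMap_apply, scal_mon, smul_smul, mul_comm, hαa]
        rw [map_smul, h4, smul_sub, smul_smul, inv_mul_cancel₀ hta, one_smul, Finset.smul_sum]
        simp only [smul_sub, Finset.sum_sub_distrib]
        congr 1
        · simp
        · simp only [Finset.smul_sum]
          rw [Finset.sum_comm]
          refine Finset.sum_congr rfl fun r hr => ?_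
          have h5 := hSlt r hr
          have h6 : α r ≤ B := by
            rw [hB]
            exact Finset.le_sup (hSM r hr)
          rw [Finset.sum_eq_single (α r - α x)]
          · rw [if_pos rfl, smul_smul, smul_smul]
            congr 1
            have h7 : t ^ α r = t ^ α x * t ^ (α r - α x) := by
              rw [← pow_add]
              congr 1
              omega
            rw [h7]
            field_simp
          · intro k _ hk
            rw [if_neg (Ne.symm hk), smul_zero]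
          · intro hk
            exact absurd (Finset.mem_range.2 (by omega)) hk)
    (h2 R hRT hRc)
  have hsub1 : vIdeal 1 (Sum.elim w w') (Sum.elim c c') (Sum.elim γ γ') ≤ vIdeal 1 w c γ :=
    le_iInf fun a => iInf_le_of_le (Sum.inl a) le_rfl
  have hsub2 : vIdeal 1 (Sum.elim w w') (Sum.elim c c') (Sum.elim γ γ') ≤ vIdeal 1 w' c' γ' :=
    le_iInf fun a => iInf_le_of_le (Sum.inr a) le_rfl
  have huP : ∀ i, u i ∈ mspan K (↑M : Set (ℕ × ℕ)) ∧ u i ∈ vIdeal 1 w c γ := fun i => by
    have h3 := hu i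
    rw [hP, Submodule.mem_inf, Submodule.restrictScalars_mem] at h3
    exact h3
  refine ⟨_, ⟨Sum.elim c c', Sum.elim γ γ', rfl⟩, Fin.append v u, fun i => ?_, fun b hb => ?_⟩
  · refine Fin.addCases (fun j => ?_) (fun j => ?_) i
    · rw [Fin.append_left]
      exact mspan_mono (by exact_mod_cast hTM) (hv j)
    · rw [Fin.append_right]
      exact (huP j).1
  · rw [Fin.sum_univ_add] at hb
    simp only [Fin.append_left, Fin.append_right] at hb
    have h3 : ∑ j, b (Fin.natAdd (Aw w) j) • u j ∈ vIdeal 1 w c γ :=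
      Submodule.sum_mem _ fun j _ => Submodule.smul_of_tower_mem _ _ (huP j).2
    have h4 : ∑ j, b (Fin.castAdd N j) • v j ∈ vIdeal 1 w c γ := by
      have := Ideal.sub_mem _ (hsub1 hb) h3
      rwa [add_sub_cancel_right] at this
    have h5 := hli _ h4
    have h6 : ∑ j, b (Fin.castAdd N j) • v j = 0 :=
      Finset.sum_eq_zero fun j _ => by rw [h5 j, zero_smul]
    rw [h6, zero_add] at hb
    have h7 := hli' _ (hsub2 hb)
    intro i
    exact Fin.addCases (fun j => h5 j) (fun j => h7 j) i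

end Pool.Agent.W608
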