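import Mathlib
import Pool.Agent.H932R3.ChainS

set_option autoImplicit false

/-!
# Healing a shape whose top row is too short
-/

namespace Pool.Agent.W608

open Polynomial Pool.Agent.H932R2 Pool.Agent.H932R3

/-- `h` rows of lengths `V - s * l` and a top row of length `X`. -/
def Phi (s h V X : ℕ) : Set (ℕ × ℕ) :=
  {p | (p.2 < h ∧ p.1 + s * p.2 < V) ∨ (p.2 = h ∧ p.1 < X)}

theorem mem_Phi {s h V X i l : ℕ} :
    ((i, l) : ℕ × ℕ) ∈ Phi s h V X ↔ (l < h ∧ i + s * l < V) ∨ (l = h ∧ i < X) := Iff.rfl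

/-- The intermediate shape: the last `y + 1` rows have one more element. -/
def Psi (S h W y : ℕ) : Set (ℕ × ℕ) :=
  {p | p.2 ≤ h ∧ p.1 + S * p.2 < W + (if h ≤ p.2 + y then 1 else 0)}

theorem mem_Psi {S h W y i l : ℕ} :
    ((i, l) : ℕ × ℕ) ∈ Psi S h W y ↔ l ≤ h ∧ i + S * l < W + (if h ≤ l + y then 1 else 0) :=
  Iff.rfl

theorem heal_one {s h V X t B : ℕ} (hV : V = s * h + t) (hh : 1 ≤ h) (hX : X + h ≤ t)
    (hB : h ≤ B) : DomY (s + 1) B (Phi s h V X) (Phi (s + 2) h (V + h - 1) X) := by
  refine domY_of_block fun i q hp => ?_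
  rw [mem_Phi] at hp
  have e0 : (s + 1) * h = s * h + h := by ring
  rcases hp with ⟨hq, hi⟩ | ⟨rfl, hi⟩
  · have e1 : (s + 2) * q = (s + 1) * q + q := by ring
    rw [e1] at hi
    rcases Nat.lt_or_ge (i + (s + 1) * q) V with h1 | h1
    · refine ⟨0, by omega, by rw [zero_add]; omega, fun l hl hl' x hx => ?_⟩
      rw [mem_Phi]
      have e2 : (s + 1) * l = s * l + l := by ring
      left
      omega
    · obtain ⟨b, hb⟩ : ∃ b, i + (s + 1) * q + 1 = V + b := ⟨i + (s + 1) * q + 1 - V, by omega⟩
      have h2 : (s + 1) * (b + q) ≤ (s + 1) * h := Nat.mul_le_mul_left _ (by omega)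
      refine ⟨b, by omega, by omega, fun l hl hl' x hx => ?_⟩
      rw [mem_Phi]
      have e2 : (s + 1) * l = s * l + l := by ring
      left
      omega
  · refine ⟨0, by omega, by rw [zero_add]; omega, fun l hl hl' x hx => ?_⟩
    rw [mem_Phi]
    have e2 : (s + 1) * l = s * l + l := by ring
    rcases Nat.lt_or_ge l q with h1 | h1
    · left
      omega
    · right
      have : l = q := by omega
      subst this
      omega

theorem heal_two {s h V X t y B : ℕ} (hV : V = s * h + t) (hh : 1 ≤ h) (hX : X + h = t + y)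
    (hy : y ≤ h) (ht : h ≤ t) (hB : h ≤ B) :
    DomY (s + 1) B (Phi s h V X) (Psi (s + 2) h (V + h - 1) y) := by
  refine domY_of_block fun i q hp => ?_
  rw [mem_Psi] at hp
  obtain ⟨hq, hi⟩ := hp
  have e0 : (s + 1) * h = s * h + h := by ring
  have e1 : (s + 2) * q = (s + 1) * q + q := by ring
  rw [e1] at hi
  rcases Nat.lt_or_ge (i + (s + 1) * q) V with h1 | h1
  · refine ⟨0, by omega, by rw [zero_add]; omega, fun l hl hl' x hx => ?_⟩
    rw [mem_Phi]
    have e2 : (s + 1) * l = s * l + l := by ring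
    rcases Nat.lt_or_ge l h with h3 | h3
    · left
      omega
    · right
      have : l = h := by omega
      subst this
      omega
  · obtain ⟨b, hb⟩ : ∃ b, i + (s + 1) * q + 1 = V + b := ⟨i + (s + 1) * q + 1 - V, by omega⟩
    have h2' : b + q ≤ h := by split_ifs at hi <;> omega
    have h2 : (s + 1) * (b + q) ≤ (s + 1) * h := Nat.mul_le_mul_left _ h2'
    refine ⟨b, by omega, by omega, fun l hl hl' x hx => ?_⟩
    rw [mem_Phi]
    have e2 : (s + 1) * l = s * l + l := by ring
    rcases Nat.lt_or_ge l h with h3 | h3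
    · left
      omega
    · right
      have : l = h := by omega
      subst this
      split_ifs at hi <;> omega

theorem heal_three {S h W t y B : ℕ} (hW : W = S * h + t) (ht : t < S) (hy : y ≤ h)
    (hB : h ≤ B) : DomY S B (Psi S h W y) (Lset S W (y + 1)) := by
  refine domY_of_block fun i q hp => ?_
  rw [mem_Lset] at hp
  have hqh : q ≤ h := by
    by_contra hq
    have h1 : S * (h + 1) ≤ S * q := Nat.mul_le_mul_left _ (by omega)
    have h2 : S * (h + 1) = S * h + S := by ring
    omega
  rcases hp with h1 | ⟨h1, h2⟩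
  · refine ⟨0, by omega, by rw [zero_add]; omega, fun l hl hl' x hx => ?_⟩
    rw [mem_Psi]
    refine ⟨by omega, ?_⟩
    omega
  · have h3 : S * (h - y + q) ≤ S * h := Nat.mul_le_mul_left _ (by omega)
    refine ⟨h - y, by omega, by omega, fun l hl hl' x hx => ?_⟩
    rw [mem_Psi]
    refine ⟨by omega, ?_⟩
    rw [if_pos (by omega)]
    omega

variable {K : Type*} [Field K] [Infinite K] {𝓘 : Set (Ideal K[X][X])} {n : ℕ}

/-- A short top row heals. -/
theorem heal (h𝓘 : Stable 𝓘) (B : ℕ) (hK : ∀ k : ℕ, 0 < k → k ≤ B → (k : K) ≠ 0) (h : ℕ)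
    (hh : 1 ≤ h) (hB : h ≤ B) (g : ℕ) :
    ∀ s t X : ℕ, X + g = t → t < s → g + h + 1 ≤ t →
      ∃ κ t' j, t' < s + 2 * κ ∧ j ≤ h + 1 ∧ κ * (h + 1) ≤ g + h + 1 ∧
        sz (s + 2 * κ) h t' j = s * h * (h + 1) + 2 * h * t + 2 * X ∧
        (RkS 𝓘 (Lset (s + 2 * κ) ((s + 2 * κ) * h + t') j) n →
          RkS 𝓘 (Phi s h (s * h + t) X) n) := by
  induction g using Nat.strong_induction_on with
  | _ g ih =>
    intro s t X hX ht hgt
    obtain ⟨x, hx⟩ : ∃ x, t = x + (h + 1) := ⟨t - (h + 1), by omega⟩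
    rcases Nat.lt_or_ge g (h + 1) with hg | hg
    · refine ⟨1, x, h - g + 1, by omega, by omega, by omega, ?_, fun hR => ?_⟩
      · obtain ⟨z, hz⟩ : ∃ z, h = g + z := Nat.exists_eq_add_of_le (by omega)
        have hz' : h - g = z := by omega
        rw [hz']
        unfold sz
        zify at hz hx hX ⊢
        have hX' : (X : ℤ) = t - g := by linarith
        have hz2 : (z : ℤ) = h - g := by linarith
        rw [hX', hz2, hx]
        ring
      · refine RkS.compressY h𝓘 (s + 1) B hK
          (heal_two (t := t) (y := h - g) rfl hh (by omega) (by omega) (by omega) hB) ?_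
        refine RkS.compressY h𝓘 (s + 2) B hK (heal_three (t := x) ?_ (by omega) (by omega) hB)
          (n := n) (M' := Lset (s + 2) (s * h + t + h - 1) (h - g + 1)) ?_
        · have e1 : (s + 2) * h = s * h + 2 * h := by ring
          omega
        · have e1 : (s + 2) * h = s * h + 2 * h := by ring
          have e2 : s * h + t + h - 1 = (s + 2 * 1) * h + x := by
            rw [mul_one, e1]
            omega
          rw [e2]
          exact hR
    · obtain ⟨g', hg'⟩ : ∃ g', g = g' + (h + 1) := ⟨g - (h + 1), by omega⟩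
      obtain ⟨κ, t', j, h1, h2, h3, h4, h5⟩ := ih g' (by omega) (s + 2) x X (by omega) (by omega)
        (by omega)
      have e3 : s + 2 + 2 * κ = s + 2 * (κ + 1) := by ring
      rw [e3] at h1 h4 h5
      refine ⟨κ + 1, t', j, h1, h2, ?_, ?_, fun hR => ?_⟩
      · have : (κ + 1) * (h + 1) = κ * (h + 1) + (h + 1) := by ring
        omega
      · rw [h4, hx]
        ring
      · refine RkS.compressY h𝓘 (s + 1) B hK
          (heal_one (t := t) rfl hh (by omega) hB) ?_
        have e1 : (s + 2) * h = s * h + 2 * h := by ring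
        have e2 : s * h + t + h - 1 = (s + 2) * h + x := by
          rw [e1]
          omega
        rw [e2]
        exact h5 hR

end Pool.Agent.W608
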