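import Mathlib
import Pool.Agent.W608.Rank3

set_option autoImplicit false

/-!
# Adding points of large multiplicity
-/

namespace Pool.Agent.W608

open Polynomial Pool.Agent.H932R2 Pool.Agent.H932R3 Pool.Agent.H932R7

theorem pf_nonempty {K : Type} [Field K] {ι : Type} (w : ι → ℕ) : (PF K w).Nonempty :=
  ⟨_, fun _ => 0, fun _ => 0, rfl⟩

theorem rks_zero {K : Type} [Field K] {ι : Type} (w : ι → ℕ) (M : Set (ℕ × ℕ)) :
    RkS (PF K w) M 0 := by
  obtain ⟨J, hJ⟩ := pf_nonempty (K := K) w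
  refine ⟨J, hJ, ?_⟩
  exact ⟨fun i => i.elim0, fun i => i.elim0, fun c _ i => i.elim0⟩

/-- One point of multiplicity `k` on the monomials of degree less than `k`. -/
theorem one_point_tri (K : Type) [Field K] [Infinite K] (k : ℕ) (hk : 0 < k) :
    RkS (PF K (fun _ : Unit => k)) (Tset (k - 1)) ((k + 1).choose 2) := by
  classical
  have h := t_block K Unit (fun _ => k) k 1 1 0 hk (fun _ => le_refl _)
    (by simp) le_rfl (rks_zero _ _)
  rw [zero_add, one_mul] at h
  refine h.mono ?_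
  rintro ⟨i, l⟩ hp
  have hp' : ((i, l) : ℕ × ℕ) ∈ Zt k 1 1 := hp
  unfold Zt at hp'
  rw [mem_rowsF] at hp'
  rw [mem_Tset]
  omega

theorem card_corner (d m₀ : ℕ) (h : m₀ ≤ d + 1) :
    (Corner d (d + 1 - m₀)).card = (m₀ + 1).choose 2 := by
  classical
  have h1 : Corner d (d + 1 - m₀) =
      (rowsF m₀ fun l => m₀ - l).image fun p => (d + 1 - m₀ + p.1, p.2) := by
    ext ⟨i, l⟩
    rw [mem_Corner, Finset.mem_image]
    constructor
    · rintro ⟨h1, h2⟩
      refine ⟨(i - (d + 1 - m₀), l), ?_, ?_⟩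
      · rw [mem_rowsF]
        omega
      · rw [Prod.mk.injEq]
        exact ⟨by omega, rfl⟩
    · rintro ⟨⟨a, l'⟩, h1, h2⟩
      rw [mem_rowsF] at h1
      rw [Prod.mk.injEq] at h2
      simp only at h2
      omega
  rw [h1, Finset.card_image_of_injective, card_rowsF]
  · have h2 : ∀ m₀ : ℕ, ∑ l ∈ Finset.range m₀, (m₀ - l) = (m₀ + 1).choose 2 := by
      intro m
      induction m with
      | zero => simp
      | succ m ih =>
        have h3 : (m + 1 + 1).choose 2 = (m + 1) + (m + 1).choose 2 := by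
          rw [Nat.choose_succ_succ' (m + 1) 1, Nat.choose_one_right]
        rw [Finset.sum_range_succ', h3]
        simp only [Nat.add_sub_add_right, Nat.sub_zero]
        rw [ih, add_comm]
    exact h2 m₀
  · rintro ⟨a, b⟩ ⟨a', b'⟩ hab
    simp only [Prod.mk.injEq] at hab ⊢
    omega

/-- One point of multiplicity `m₀` on the corner. -/
theorem one_point_corner (K : Type) [Field K] [CharZero K] {ι : Type} [Fintype ι] (w : ι → ℕ)
    (a₀ : ι) (hι : ∀ a : ι, a = a₀) (d m₀ : ℕ) (hw : w a₀ = m₀) (h : m₀ ≤ d + 1) :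
    RkS (PF K w) (↑(Corner d (d + 1 - m₀)) : Set (ℕ × ℕ)) (Aw w) := by
  classical
  have : Infinite K := CharZero.infinite K
  have hA : Aw w = (m₀ + 1).choose 2 := by
    unfold Aw
    rw [Fintype.sum_eq_single a₀ (fun a ha => absurd (hι a) ha), hw]
  rcases Nat.eq_zero_or_pos m₀ with h0 | h0
  · rw [hA, h0]
    exact rks_zero _ _
  have h1 := one_point_tri K m₀ h0
  have hD : DomX (d + 1) (↑(Corner d (d + 1 - m₀)) : Set (ℕ × ℕ)) (Tset (m₀ - 1)) :=
    corner_dom (by omega) (by omega)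
  have h2 := RkS.compressX (T_STAB K _ _) (d + 1)
    (fun k hk _ => Nat.cast_ne_zero.2 (by omega)) hD h1
  have hA1 : Aw (fun _ : Unit => m₀) = (m₀ + 1).choose 2 := by
    unfold Aw
    simp
  rw [← hA1] at h2
  exact (t_tr K ι Unit w (fun _ => m₀) ⟨fun _ => (), fun a b _ => Subtype.ext
    ((hι a.1).trans (hι b.1).symm)⟩ (fun a => by rw [hι a.1, hw])
    (Corner d (d + 1 - m₀))).1 h2

theorem inj_order (d : ℕ) (M : Finset (ℕ × ℕ)) (hM : ∀ p ∈ M, p.1 + p.2 ≤ d) :
    Set.InjOn (fun x : ℕ × ℕ => (d + 1) * x.1 + x.2) (↑M : Set (ℕ × ℕ)) := by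
  rintro ⟨i, l⟩ hx ⟨i', l'⟩ hx' hxx
  have hx1 := hM _ hx
  have hx2 := hM _ hx'
  simp only at hxx hx1 hx2
  have h1 : i = i' := by
    rcases Nat.lt_trichotomy i i' with h | h | h
    · have : (d + 1) * (i + 1) ≤ (d + 1) * i' := Nat.mul_le_mul_left _ h
      rw [Nat.mul_add] at this
      omega
    · exact h
    · have : (d + 1) * (i' + 1) ≤ (d + 1) * i := Nat.mul_le_mul_left _ h
      rw [Nat.mul_add] at this
      omega
  subst h1
  rw [Prod.mk.injEq]
  exact ⟨rfl, by omega⟩

theorem up_order (d e : ℕ) {x y : ℕ × ℕ} (hx : x.1 + x.2 ≤ d) (hx' : x.1 < e)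
    (hy : e ≤ y.1) : (d + 1) * x.1 + x.2 < (d + 1) * y.1 + y.2 := by
  have h1 : (d + 1) * (x.1 + 1) ≤ (d + 1) * y.1 := Nat.mul_le_mul_left _ (by omega)
  rw [Nat.mul_add] at h1
  omega

/-- The monomials of degree at most `d` with `i < h`. -/
def Mcut (d h : ℕ) : Finset (ℕ × ℕ) := (Tfin d).filter fun p => p.1 < h

theorem mem_tfin {d : ℕ} {p : ℕ × ℕ} : p ∈ Tfin d ↔ p.1 + p.2 ≤ d := by
  have : p ∈ (↑(Tfin d) : Set (ℕ × ℕ)) ↔ p.1 + p.2 ≤ d := by
    rw [coe_Tfin]
    rfl
  rwa [Finset.mem_coe] at this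

theorem mem_Mcut {d h : ℕ} {p : ℕ × ℕ} : p ∈ Mcut d h ↔ p.1 + p.2 ≤ d ∧ p.1 < h := by
  unfold Mcut
  rw [Finset.mem_filter, mem_tfin]

theorem card_Mcut (d m₀ h : ℕ) (hd : d + 1 = h + m₀) :
    (Mcut d h).card + (m₀ + 1).choose 2 = (d + 2).choose 2 := by
  classical
  have h1 := Finset.card_filter_add_card_filter_not (s := Tfin d) (fun p => p.1 < h)
  have h2 : (Tfin d).filter (fun p => ¬ p.1 < h) = Corner d h := by
    unfold Corner
    refine Finset.filter_congr fun p _ => ?_
    rw [not_lt]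
  have h3 := card_corner d m₀ (by omega)
  rw [show d + 1 - m₀ = h by omega] at h3
  rw [h2, h3] at h1
  rw [← card_Tfin']
  exact h1

/-- Placing one point of multiplicity `m₀` in the corner. -/
theorem cut_point (K : Type) [Field K] [CharZero K] {ι : Type} [Fintype ι] [DecidableEq ι]
    (w : ι → ℕ)
    (a₀ : ι) (d m₀ h : ℕ) (hd : d + 1 = h + m₀) (hw : w a₀ = m₀) (N : ℕ)
    (hR : RkS (PF K (fun a : {a // a ∉ ({a₀} : Finset ι)} => w a))
      (↑(Mcut d h) : Set (ℕ × ℕ)) N) :
    RkS (PF K w) (Tset d) ((m₀ + 1).choose 2 + N) := by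
  classical
  have : Infinite K := CharZero.infinite K
  have hh : h = d + 1 - m₀ := by omega
  rw [← coe_Tfin]
  refine split_S w {a₀} (Tfin d) _ ?_
  have hA : Aw (fun a : {a // a ∈ ({a₀} : Finset ι)} => w a) = (m₀ + 1).choose 2 := by
    unfold Aw
    rw [Finset.sum_coe_sort ({a₀} : Finset ι) (fun a => (w a + 1).choose 2),
      Finset.sum_singleton, hw]
  rw [← hA]
  refine comb _ _ (Tfin d) (Corner d h) (d + 1) (Finset.filter_subset _ _)
    (inj_order d _ fun p hp => mem_tfin.1 hp) ?_ ?_ N ?_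
  · intro x hx hx' y hy
    have hx1 := mem_tfin.1 hx
    obtain ⟨y1, y2⟩ := y
    rw [mem_Corner] at hy
    refine up_order d h hx1 ?_ hy.2
    by_contra hcon
    exact hx' (by
      obtain ⟨x1, x2⟩ := x
      rw [mem_Corner]
      exact ⟨hx1, not_lt.1 hcon⟩)
  · rw [hh]
    refine one_point_corner K _ (⟨a₀, Finset.mem_singleton_self a₀⟩) (fun a => ?_) d m₀ hw
      (by omega)
    exact Subtype.ext (Finset.mem_singleton.1 a.2)
  · intro R hRT hRc
    rw [hA] at hRc
    have h3 := card_corner d m₀ (by omega)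
    rw [← hh] at h3
    have hRe : R = Corner d h := Finset.eq_of_subset_of_card_le hRT (by rw [h3, hRc])
    rw [hRe]
    refine hR.mono ?_
    intro p hp
    rw [Finset.mem_coe, mem_Mcut] at hp
    refine ⟨Finset.mem_coe.2 (mem_tfin.2 hp.1), fun hc => ?_⟩
    obtain ⟨p1, p2⟩ := p
    rw [Finset.mem_coe, mem_Corner] at hc
    exact absurd hc.2 (not_le.2 hp.2)

/-- Adding one point. -/
theorem add_one (K : Type) [Field K] [CharZero K] {ι : Type} [Fintype ι] [DecidableEq ι]
    (w : ι → ℕ) (a₀ : ι) (c : ℕ)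
    (hR : RkS (PF K (fun a : {a // a ∉ ({a₀} : Finset ι)} => w a)) (Tset c)
      (Aw (fun a : {a // a ∉ ({a₀} : Finset ι)} => w a))) :
    RkS (PF K w) (Tset (c + w a₀)) (Aw w) := by
  classical
  have h1 := cut_point K w a₀ (c + w a₀) (w a₀) (c + 1) (by omega) rfl _ (hR.mono (by
    intro p hp
    rw [Finset.mem_coe, mem_Mcut]
    have : p.1 + p.2 ≤ c := hp
    omega))
  have hA := Aw_split w ({a₀} : Finset ι)
  have hA1 : Aw (fun a : {a // a ∈ ({a₀} : Finset ι)} => w a) = (w a₀ + 1).choose 2 := by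
    unfold Aw
    rw [Finset.sum_coe_sort ({a₀} : Finset ι) (fun a => (w a + 1).choose 2),
      Finset.sum_singleton]
  rw [hA1] at hA
  rw [hA]
  exact h1

/-- Adding the points of multiplicity greater than `m`. -/
theorem add_big (K : Type) [Field K] [CharZero K] (m : ℕ) (s : ℕ) :
    ∀ (ι : Type) [Fintype ι] (w : ι → ℕ) (c : ℕ),
      Fintype.card {a // m < w a} = s →
      RkS (PF K (fun a : {a // ¬ m < w a} => w a)) (Tset c)
        (Aw (fun a : {a // ¬ m < w a} => w a)) →
      RkS (PF K w) (Tset (c + ∑ a, if m < w a then w a else 0)) (Aw w) := by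
  classical
  have : Infinite K := CharZero.infinite K
  induction s with
  | zero =>
    intro ι _ w c hs hR
    have h0 : ∀ a, ¬ m < w a := by
      intro a ha
      rw [Fintype.card_eq_zero_iff] at hs
      exact hs.false ⟨a, ha⟩
    have h1 : (∑ a, if m < w a then w a else 0) = 0 :=
      Finset.sum_eq_zero fun a _ => if_neg (h0 a)
    rw [h1, add_zero]
    rw [← coe_Tfin] at hR ⊢
    exact (t_tr K ι {a // ¬ m < w a} w (fun a => w a)
      ⟨fun a => ⟨a.1, h0 a.1⟩, fun a b hab => Subtype.ext (by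
        have := congrArg (fun x => x.1) hab
        exact this)⟩
      (fun a => le_refl _) (Tfin c)).1 hR
  | succ s ih =>
    intro ι _ w c hs hR
    obtain ⟨⟨a₀, ha₀⟩⟩ : Nonempty {a // m < w a} := by
      rw [← Fintype.card_pos_iff, hs]
      omega
    obtain ⟨v, hv⟩ : ∃ v : {a // a ∉ ({a₀} : Finset ι)} → ℕ, v = fun a => w a.1 := ⟨_, rfl⟩
    have hv' : ∀ a, v a = w a.1 := fun a => by rw [hv]
    have hcard : Fintype.card {a // m < v a} = s := by
      have e1 : Fintype.card {a // m < v a} + 1 = Fintype.card {a // m < w a} := by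
        have e2 : Fintype.card {b : {a // m < w a} // b ≠ ⟨a₀, ha₀⟩} + 1 =
            Fintype.card {a // m < w a} := by
          rw [Fintype.card_subtype_compl, Fintype.card_subtype_eq]
          have : 0 < Fintype.card {a // m < w a} := Fintype.card_pos_iff.2 ⟨⟨a₀, ha₀⟩⟩
          omega
        rw [← e2]
        congr 1
        refine Fintype.card_congr ⟨fun a => ⟨⟨a.1.1, by have := a.2; rwa [hv'] at this⟩,
          fun h => a.1.2 (Finset.mem_singleton.2 (congrArg Subtype.val h))⟩,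
          fun b => ⟨⟨b.1.1, fun h => b.2 (Subtype.ext (Finset.mem_singleton.1 h))⟩,
            by rw [hv']; exact b.1.2⟩, fun a => rfl, fun b => rfl⟩
      omega
    have hsum : (∑ a, if m < w a then w a else 0) =
        w a₀ + ∑ a, if m < v a then v a else 0 := by
      rw [← Finset.add_sum_erase _ _ (Finset.mem_univ a₀), if_pos ha₀, hv]
      congr 1
      rw [← Finset.sum_subtype (Finset.univ.erase a₀) (by simp)
        (fun a => if m < w a then w a else 0)]
    have h2 := ih {a // a ∉ ({a₀} : Finset ι)} v c hcard (by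
      rw [← coe_Tfin] at hR ⊢
      exact (t_tr K {a : {a // a ∉ ({a₀} : Finset ι)} // ¬ m < v a} {a // ¬ m < w a}
        (fun a => v a) (fun a => w a)
        ⟨fun a => ⟨a.1.1.1, by have := a.1.2; rwa [hv'] at this⟩, fun a b hab =>
          Subtype.ext (Subtype.ext (Subtype.ext (by
            have := congrArg (fun x => x.1) hab
            exact this)))⟩
        (fun a => (hv' _).le) (Tfin c)).1 hR)
    have h3 := add_one K w a₀ (c + ∑ a, if m < v a then v a else 0) (by rw [← hv]; exact h2)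
    rw [hsum, show c + (w a₀ + ∑ a, if m < v a then v a else 0) =
      (c + ∑ a, if m < v a then v a else 0) + w a₀ by ring]
    exact h3

end Pool.Agent.W608
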