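import Mathlib
import Pool.Agent.W608.Start

set_option autoImplicit false

/-!
# From the degree `d` monomials minus a large corner and a part of a strip to a balanced shape
-/

namespace Pool.Agent.W608

open Polynomial Pool.Agent.H932R2 Pool.Agent.H932R3

theorem exists_cols' (δ b d q : ℕ) (hδ : 0 < δ) (hb : b ≤ δ) :
    ∃ A : Finset ℕ, A.card = cnt b (d + 1 - δ * q) ∧
      ∀ x ∈ A, x / δ + x % δ + δ * q ≤ d ∧ x % δ < b := by
  classical
  have key : ∀ a r, r < δ → (δ * a + r) / δ = a ∧ (δ * a + r) % δ = r := by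
    intro a r hr
    constructor
    · rw [Nat.mul_add_div hδ, Nat.div_eq_of_lt hr, add_zero]
    · rw [Nat.mul_add_mod, Nat.mod_eq_of_lt hr]
  refine ⟨(rowsF b fun r => d + 1 - δ * q - r).image fun p => δ * p.1 + p.2, ?_, ?_⟩
  · rw [Finset.card_image_of_injOn, card_rowsF]
    · rfl
    · rintro ⟨a, r⟩ hp ⟨a', r'⟩ hp' h
      rw [Finset.mem_coe, mem_rowsF] at hp hp'
      simp only at h
      have h1 := key a r (by omega)
      have h2 := key a' r' (by omega)
      rw [h] at h1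
      rw [Prod.mk.injEq]
      exact ⟨h1.1.symm.trans h2.1, h1.2.symm.trans h2.2⟩
  · intro x hx
    rw [Finset.mem_image] at hx
    obtain ⟨⟨a, r⟩, hp, rfl⟩ := hx
    rw [mem_rowsF] at hp
    simp only
    rw [(key a r (by omega)).1, (key a r (by omega)).2]
    omega

/-- The first step, with a top row of the expected length. -/
theorem step_DRB {δ d u b m₀ B : ℕ} {R R' : Finset (ℕ × ℕ)} (hδ : 0 < δ) (hb : b ≤ δ)
    (hd : d + 1 = δ * u + (b + m₀)) (hB : δ * d ≤ B)
    (hR' : ∀ p ∈ R', p ∈ R ∨ δ * u + b ≤ p.1) :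
    DomX B (M1R δ d u R')
      (Phi (δ * δ) u (δ * δ * u + δ * (b + m₀) - cc δ) (cnt b (b + m₀) - R.card)) := by
  classical
  refine domX_of_card fun i q hp => ?_
  rw [mem_Phi] at hp
  have hbound : ∀ x, x / δ + x % δ + δ * q ≤ d → x ≤ B := by
    intro x h1
    refine le_trans ?_ hB
    have h2 := Nat.div_add_mod x δ
    have h3 : δ * (x / δ + x % δ) ≤ δ * d := Nat.mul_le_mul_left _ (by omega)
    have h4 : x % δ ≤ δ * (x % δ) := Nat.le_mul_of_pos_left _ hδ
    rw [Nat.mul_add] at h3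
    omega
  rcases hp with ⟨hq, hi⟩ | ⟨rfl, hi⟩
  · obtain ⟨A, hA, hM⟩ := exists_cols δ d q hδ
    refine ⟨A, ?_, fun x hx => ⟨hbound x (hM x hx), mem_M1R.2 ⟨hM x hx, Or.inl hq⟩⟩⟩
    obtain ⟨w, rfl⟩ := Nat.exists_eq_add_of_lt hq
    have h1 : d + 1 - δ * q = δ * (w + 1) + (b + m₀) := by
      rw [hd]
      have : δ * (q + w + 1) = δ * q + δ * (w + 1) := by ring
      omega
    rw [h1] at hA
    have h2 := cnt_add δ (δ * (w + 1) + (b + m₀))
    have h3 : YY δ (δ * (w + 1) + (b + m₀)) = 0 := YY_zero (by nlinarith)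
    have h4 : δ * (δ * (w + 1) + (b + m₀)) = δ * δ * (w + 1) + δ * (b + m₀) := by ring
    have h5 : δ * δ * (q + w + 1) = δ * δ * q + δ * δ * (w + 1) := by ring
    rw [h4, h3] at h2
    rw [h5] at hi
    omega
  · obtain ⟨A, hA, hM⟩ := exists_cols' δ b d q hδ hb
    refine ⟨A.filter fun x => ((δ * q + x % δ, x / δ) : ℕ × ℕ) ∉ R, ?_, fun x hx => ?_⟩
    · have h1 : d + 1 - δ * q = b + m₀ := by omega
      rw [h1] at hA
      have h2 := Finset.card_filter_add_card_filter_not (s := A)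
        (fun x => ((δ * q + x % δ, x / δ) : ℕ × ℕ) ∈ R)
      have h3 : (A.filter fun x => ((δ * q + x % δ, x / δ) : ℕ × ℕ) ∈ R).card ≤ R.card := by
        refine Finset.card_le_card_of_injOn (fun x => (δ * q + x % δ, x / δ))
          (fun x hx => (Finset.mem_filter.1 hx).2) ?_
        intro x _ y _ hxy
        simp only [Prod.mk.injEq] at hxy
        have h4 := Nat.div_add_mod x δ
        have h5 := Nat.div_add_mod y δ
        rw [hxy.2] at h4
        omega
      omega
    · rw [Finset.mem_filter] at hx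
      obtain ⟨h1, h2⟩ := hM x hx.1
      refine ⟨hbound x h1, mem_M1R.2 ⟨h1, Or.inr ⟨rfl, fun h3 => ?_⟩⟩⟩
      rcases hR' _ h3 with h4 | h4
      · exact hx.2 h4
      · simp only at h4
        omega

/-- `h + 1` rows of a balanced trapezoid. -/
def Zs (S h W j : ℕ) : Set (ℕ × ℕ) :=
  {p | p.2 ≤ h ∧ p.1 + S * p.2 < W + (if p.2 < j then 1 else 0)}

theorem mem_Zs {S h W j i l : ℕ} :
    ((i, l) : ℕ × ℕ) ∈ Zs S h W j ↔ l ≤ h ∧ i + S * l < W + (if l < j then 1 else 0) :=
  Iff.rfl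

theorem Zs_eq {S h t j : ℕ} (ht : t < S) (hj : j ≤ h + 1) :
    Lset S (S * h + t) j ⊆ Zs S h (S * h + t) j := by
  rintro ⟨i, l⟩ hp
  rw [mem_Lset] at hp
  rw [mem_Zs]
  rcases Nat.lt_or_ge h l with h1 | h1
  · have h2 : S * (h + 1) ≤ S * l := Nat.mul_le_mul_left _ h1
    have h3 : S * (h + 1) = S * h + S := by ring
    omega
  · refine ⟨h1, ?_⟩
    split_ifs <;> omega

theorem zs_of_psi {S h W y B : ℕ} (hW : S * h ≤ W) (hy : y ≤ h) (hB : h ≤ B) :
    DomY S B (Psi S h W y) (Zs S h W (y + 1)) := by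
  refine domY_of_block fun i q hp => ?_
  rw [mem_Zs] at hp
  obtain ⟨hqh, hi⟩ := hp
  rcases Nat.lt_or_ge (i + S * q) W with h1 | h1
  · refine ⟨0, by omega, by rw [zero_add]; omega, fun l hl hl' x hx => ?_⟩
    rw [mem_Psi]
    refine ⟨by omega, ?_⟩
    omega
  · have h0 : q < y + 1 := by
      by_contra hq
      rw [if_neg hq] at hi
      omega
    have h3 : S * (h - y + q) ≤ S * h := Nat.mul_le_mul_left _ (by omega)
    refine ⟨h - y, by omega, by omega, fun l hl hl' x hx => ?_⟩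
    rw [mem_Psi]
    refine ⟨by omega, ?_⟩
    rw [if_pos h0] at hi
    rw [if_pos (by omega)]
    omega

theorem psi_of_zs {S h W t j B : ℕ} (hW : W = S * h + t) (ht : h ≤ t) (hj : 1 ≤ j)
    (hB : h ≤ B) :
    DomY (S + 1) B (Zs S h W j) (Psi (S + 2) h (W + h) (j - 1)) := by
  refine domY_of_block fun i q hp => ?_
  rw [mem_Psi] at hp
  obtain ⟨hqh, hi⟩ := hp
  have e1 : (S + 2) * q = (S + 1) * q + q := by ring
  have e0 : (S + 1) * h = S * h + h := by ring
  rw [e1] at hi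
  rcases Nat.lt_or_ge (i + (S + 1) * q) W with h1 | h1
  · refine ⟨0, by omega, by rw [zero_add]; omega, fun l hl hl' x hx => ?_⟩
    rw [mem_Zs]
    have e2 : (S + 1) * l = S * l + l := by ring
    refine ⟨by omega, ?_⟩
    omega
  · obtain ⟨v, hv⟩ : ∃ v, i + (S + 1) * q = W + v := ⟨i + (S + 1) * q - W, by omega⟩
    rcases Nat.lt_or_ge v j with h2 | h2
    · have h3 : v + q ≤ h := by split_ifs at hi <;> omega
      have h4 : (S + 1) * (v + q) ≤ (S + 1) * h := Nat.mul_le_mul_left _ h3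
      refine ⟨v, by omega, by omega, fun l hl hl' x hx => ?_⟩
      rw [mem_Zs]
      have e2 : (S + 1) * l = S * l + l := by ring
      refine ⟨by omega, ?_⟩
      split_ifs <;> omega
    · have h3 : v + 1 + q ≤ h := by split_ifs at hi <;> omega
      have h4 : (S + 1) * (v + 1 + q) ≤ (S + 1) * h := Nat.mul_le_mul_left _ h3
      refine ⟨v + 1, by omega, by omega, fun l hl hl' x hx => ?_⟩
      rw [mem_Zs]
      have e2 : (S + 1) * l = S * l + l := by ring
      refine ⟨by omega, ?_⟩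
      split_ifs <;> omega

variable {K : Type*} [Field K] [Infinite K] {𝓘 : Set (Ideal K[X][X])} {n : ℕ}

/-- A trapezoid is turned into a triangle. -/
theorem zs_chain (h𝓘 : Stable 𝓘) (B : ℕ) (hK : ∀ k : ℕ, 0 < k → k ≤ B → (k : K) ≠ 0) (h : ℕ)
    (hh : 1 ≤ h) (hB : h ≤ B) (j : ℕ) (hj : 1 ≤ j) (hj' : j ≤ h + 1) (t : ℕ) :
    ∀ S, h ≤ S → ∃ κ t', t' < S + 2 * κ ∧
        sz (S + 2 * κ) h t' j = sz S h t j ∧
        (RkS 𝓘 (Lset (S + 2 * κ) ((S + 2 * κ) * h + t') j) n →
          RkS 𝓘 (Zs S h (S * h + t) j) n) := by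
  induction t using Nat.strong_induction_on with
  | _ t ih =>
    intro S hS
    rcases Nat.lt_or_ge t S with h1 | h1
    · exact ⟨0, t, by omega, by simp, fun hR => by
        rw [mul_zero, add_zero] at hR
        exact hR.mono (Zs_eq h1 hj')⟩
    · obtain ⟨x, hx⟩ : ∃ x, t = x + h := ⟨t - h, by omega⟩
      obtain ⟨κ, t', h2, h3, h4⟩ := ih x (by omega) (S + 2) (by omega)
      have e3 : S + 2 + 2 * κ = S + 2 * (κ + 1) := by ring
      rw [e3] at h2 h3 h4
      refine ⟨κ + 1, t', h2, ?_, fun hR => ?_⟩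
      · rw [h3, hx]
        unfold sz
        ring
      · refine RkS.compressY h𝓘 (S + 1) B hK
          (psi_of_zs (t := t) rfl (by omega) hj hB) ?_
        have e4 : j - 1 + 1 = j := by omega
        have e5 : S * h + t + h = (S + 2) * h + x := by rw [hx]; ring
        refine RkS.compressY h𝓘 (S + 2) B hK (zs_of_psi (y := j - 1) ?_ (by omega) hB) ?_
        · rw [e5]
          omega
        · rw [e4, e5]
          exact h4 hR

/-- A short top row heals, without a bound on the length of the last full row. -/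
theorem healB (h𝓘 : Stable 𝓘) (B : ℕ) (hK : ∀ k : ℕ, 0 < k → k ≤ B → (k : K) ≠ 0) (h : ℕ)
    (hh : 1 ≤ h) (hB : h ≤ B) (g : ℕ) :
    ∀ s t X : ℕ, X + g = t → h ≤ s → g + h + 1 ≤ t →
      ∃ κ t' j, t' < s + 2 * κ ∧ j ≤ h + 1 ∧
        sz (s + 2 * κ) h t' j = s * h * (h + 1) + 2 * h * t + 2 * X ∧
        (RkS 𝓘 (Lset (s + 2 * κ) ((s + 2 * κ) * h + t') j) n →
          RkS 𝓘 (Phi s h (s * h + t) X) n) := by
  induction g using Nat.strong_induction_on with
  | _ g ih =>
    intro s t X hX hs hgt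
    obtain ⟨x, hx⟩ : ∃ x, t = x + (h + 1) := ⟨t - (h + 1), by omega⟩
    rcases Nat.lt_or_ge g (h + 1) with hg | hg
    · obtain ⟨κ, t', h1, h2, h3⟩ := zs_chain (n := n) h𝓘 B hK h hh hB (h - g + 1) (by omega)
        (by omega) x (s + 2) (by omega)
      have e3 : s + 2 + 2 * κ = s + 2 * (κ + 1) := by ring
      rw [e3] at h1 h2 h3
      refine ⟨κ + 1, t', h - g + 1, h1, by omega, ?_, fun hR => ?_⟩
      · rw [h2]
        obtain ⟨z, hz⟩ : ∃ z, h = g + z := Nat.exists_eq_add_of_le (by omega)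
        have hz' : h - g = z := by omega
        rw [hz']
        unfold sz
        zify at hz hx hX ⊢
        have hX' : (X : ℤ) = t - g := by linarith
        have hz2 : (z : ℤ) = h - g := by linarith
        rw [hX', hz2, hx]
        ring
      · refine RkS.compressY h𝓘 (s + 1) B hK
          (heal_two (t := t) (y := h - g) rfl hh (by omega) (by omega) (by omega) hB) ?_
        have e1 : (s + 2) * h = s * h + 2 * h := by ring
        have e2 : s * h + t + h - 1 = (s + 2) * h + x := by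
          rw [e1]
          omega
        rw [e2]
        refine RkS.compressY h𝓘 (s + 2) B hK (zs_of_psi (y := h - g) (by omega) (by omega) hB) ?_
        exact h3 hR
    · obtain ⟨g', hg'⟩ : ∃ g', g = g' + (h + 1) := ⟨g - (h + 1), by omega⟩
      obtain ⟨κ, t', j, h1, h2, h4, h5⟩ := ih g' (by omega) (s + 2) x X (by omega) (by omega)
        (by omega)
      have e3 : s + 2 + 2 * κ = s + 2 * (κ + 1) := by ring
      rw [e3] at h1 h4 h5
      refine ⟨κ + 1, t', j, h1, h2, ?_, fun hR => ?_⟩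
      · rw [h4, hx]
        ring
      · refine RkS.compressY h𝓘 (s + 1) B hK
          (heal_one (t := t) rfl hh (by omega) hB) ?_
        have e1 : (s + 2) * h = s * h + 2 * h := by ring
        have e2 : s * h + t + h - 1 = (s + 2) * h + x := by
          rw [e1]
          omega
        rw [e2]
        exact h5 hR

/-- From a balanced shape to the degree `d` monomials minus the corner `i ≥ δ u + b` and a part
`R` of the strip `δ u ≤ i < δ u + b`. -/
theorem start_healB (h𝓘 : Stable 𝓘) (hK : ∀ k : ℕ, 0 < k → (k : K) ≠ 0)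
    {δ d u b m₀ g e : ℕ} {R R' : Finset (ℕ × ℕ)} (hδ : 2 ≤ δ) (hu : 1 ≤ u) (hu' : u ≤ δ * δ)
    (he : δ = b + e)
    (hd : d + 1 = δ * u + (b + m₀)) (hR : ∀ p ∈ R', δ * u ≤ p.1)
    (hR' : ∀ p ∈ R', p ∈ R ∨ δ * u + b ≤ p.1)
    (hg : 2 * R.card + e + 2 * (e * m₀) = 2 * g + e * e)
    (ht : R.card + u + 1 ≤ cnt b (b + m₀)) :
    ∃ κ t' j, t' < δ * δ + 2 * κ ∧ j ≤ u + 1 ∧
      sz (δ * δ + 2 * κ) u t' j + 2 * R.card + m₀ * (m₀ + 1) = (d + 1) * (d + 2) ∧
      (RkS 𝓘 (Lset (δ * δ + 2 * κ) ((δ * δ + 2 * κ) * u + t') j) n →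
        RkS 𝓘 (Tset d \ (↑R' : Set (ℕ × ℕ))) n) := by
  have hcc := cc_two δ
  have hccb := cc_two b
  have hcnt := cnt_add b (b + m₀)
  rw [YY_zero (show b ≤ b + m₀ by omega), add_zero] at hcnt
  have hδδ : 2 * δ ≤ δ * δ := Nat.mul_le_mul_right _ hδ
  obtain ⟨X, hX⟩ : ∃ X, cnt b (b + m₀) = X + R.card := ⟨cnt b (b + m₀) - R.card, by omega⟩
  have hXg : X + g + cc δ = δ * (b + m₀) := by
    zify at he hcc hccb hcnt hX hg ⊢
    have he' : (e : ℤ) = δ - b := by linarith
    rw [he'] at hg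
    have h1 : (2 : ℤ) * (X + g + cc δ) = 2 * (δ * (b + m₀)) := by
      linear_combination -hg + 2 * hcnt + hcc - hccb - 2 * hX
    linarith
  obtain ⟨t, htd⟩ : ∃ t, t = X + g := ⟨_, rfl⟩
  obtain ⟨κ, t', j, h1, h2, h4, h5⟩ := healB (n := n) h𝓘 (δ * d + u) (fun k hk _ => hK k hk) u
    hu (by omega) g (δ * δ) t X htd.symm hu' (by omega)
  refine ⟨κ, t', j, h1, h2, ?_, fun hRk => ?_⟩
  · rw [h4, show d + 2 = (d + 1) + 1 from rfl, hd]
    zify at he hcc hccb hcnt htd hX hg hXg ⊢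
    have ht' : (t : ℤ) = δ * (b + m₀) - cc δ := by linarith
    have hX' : (X : ℤ) = b * (b + m₀) - cc b - R.card := by linarith
    rw [ht', hX']
    linear_combination (-(u : ℤ)) * hcc - hccb
  · have hδ0 : 0 < δ := by omega
    have hdB0 : d ≤ δ * d := Nat.le_mul_of_pos_left d hδ0
    have hdB : d ≤ δ * d + u := by omega
    refine RkS.compressY h𝓘 δ (δ * d + u) (fun k hk _ => hK k hk)
      (step_M1R (by omega) hdB hR) ?_
    refine RkS.compressX h𝓘 (δ * d + u) (fun k hk _ => hK k hk)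
      (step_DRB (m₀ := m₀) (b := b) (R := R) (by omega) (by omega) hd (by omega) hR') ?_
    have e1 : δ * δ * u + δ * (b + m₀) - cc δ = δ * δ * u + t := by omega
    have e2 : cnt b (b + m₀) - R.card = X := by omega
    rw [e1, e2]
    exact h5 hRk

end Pool.Agent.W608
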