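import Mathlib
import Pool.Agent.W608.BigStart
import Pool.Agent.W608.BigAdd
import Pool.Agent.W608.Rank4

set_option autoImplicit false

/-!
# Exact ranks near the critical degree with some large multiplicities
-/

namespace Pool.Agent.W608

open Polynomial Pool.Agent.H932R2 Pool.Agent.H932R3 Pool.Agent.H932R7

/-- The strip. -/
def Strip (d e h : ℕ) : Finset (ℕ × ℕ) := (Mcut d h).filter fun p => e ≤ p.1

theorem mem_Strip {d e h : ℕ} {p : ℕ × ℕ} :
    p ∈ Strip d e h ↔ p.1 + p.2 ≤ d ∧ p.1 < h ∧ e ≤ p.1 := by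
  unfold Strip
  rw [Finset.mem_filter, mem_Mcut, and_assoc]

theorem strip_dom {d e h b m₀ B : ℕ} (hh : h = e + b) (hd : d + 1 = h + m₀) (hb : 1 ≤ b)
    (hB : d ≤ B) :
    DomX B (↑(Strip d e h) : Set (ℕ × ℕ)) (Tset (b - 1)) := by
  classical
  refine domX_of_card fun i q hp => ?_
  rw [mem_Tset] at hp
  refine ⟨(Finset.range (i + 1)).image fun x => e + x, ?_, fun x hx => ?_⟩
  · rw [Finset.card_image_of_injective _ (add_right_injective e), Finset.card_range]
    omega
  · rw [Finset.mem_image] at hx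
    obtain ⟨y, hy, rfl⟩ := hx
    rw [Finset.mem_range] at hy
    refine ⟨by omega, ?_⟩
    rw [Finset.mem_coe, mem_Strip]
    simp only
    omega

theorem placeB (K : Type) [Field K] [CharZero K] {ι : Type} [Fintype ι] (w : ι → ℕ)
    (S : Finset ι) (d δ u b e g A m₀ h : ℕ)
    (hδ : 2 ≤ δ) (hu : 1 ≤ u) (hu' : u ≤ δ * δ) (he : δ = b + e) (hh : h = δ * u + b)
    (hd : d + 1 = h + m₀) (hb : 1 ≤ b)
    (hA : A = Aw (fun a : {a // a ∈ S} => w a))
    (hS : RkS (PF K (fun a : {a // a ∈ S} => w a)) (Tset (b - 1)) A)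
    (hg : 2 * A + e + 2 * (e * m₀) = 2 * g + e * e)
    (ht : A + u + 1 ≤ cnt b (b + m₀)) (N : ℕ)
    (hN : ∀ κ t' j, t' < δ * δ + 2 * κ → j ≤ u + 1 →
      sz (δ * δ + 2 * κ) u t' j + 2 * A + m₀ * (m₀ + 1) = (d + 1) * (d + 2) →
        RkS (PF K (fun a : {a // a ∉ S} => w a))
          (↑(Lfin (δ * δ + 2 * κ) u t' j) : Set (ℕ × ℕ)) N) :
    RkS (PF K w) (↑(Mcut d h) : Set (ℕ × ℕ)) (A + N) := by
  classical
  have : Infinite K := CharZero.infinite K
  have hK : ∀ k : ℕ, 0 < k → (k : K) ≠ 0 := fun k hk => Nat.cast_ne_zero.2 (by omega)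
  refine split_S w S (Mcut d h) _ ?_
  rw [hA]
  refine comb _ _ (Mcut d h) (Strip d (δ * u) h) (d + 1) (Finset.filter_subset _ _)
    (inj_order d _ fun p hp => (mem_Mcut.1 hp).1) ?_ ?_ N ?_
  · intro x hx hx' y hy
    have hx1 := mem_Mcut.1 hx
    refine up_order d (δ * u) hx1.1 ?_ (mem_Strip.1 hy).2.2
    by_contra hcon
    exact hx' (mem_Strip.2 ⟨hx1.1, hx1.2, not_lt.1 hcon⟩)
  · rw [← hA]
    exact RkS.compressX (T_STAB K _ _) (d + 1) (fun k hk _ => hK k hk)
      (strip_dom hh hd hb (by omega)) hS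
  · intro R hR hRc
    rw [← hA] at hRc
    obtain ⟨κ, t', j, h1, h2, h4, h5⟩ := start_healB (n := N)
      (T_STAB K _ (fun a : {a // a ∉ S} => w a)) hK (R := R) (R' := R ∪ Corner d h)
      hδ hu hu' he (b := b) (m₀ := m₀) (d := d) (by omega)
      (by
        rintro ⟨i, l⟩ hp
        rcases Finset.mem_union.1 hp with hp | hp
        · exact (mem_Strip.1 (hR hp)).2.2
        · have := (mem_Corner.1 hp).2
          simp only
          omega)
      (by
        rintro ⟨i, l⟩ hp
        rcases Finset.mem_union.1 hp with hp | hp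
        · exact Or.inl hp
        · have := (mem_Corner.1 hp).2
          right
          simp only
          omega)
      (by rw [hRc]; exact hg) (by rw [hRc]; exact ht)
    have hset : (↑(Mcut d h) : Set (ℕ × ℕ)) \ (↑R : Set (ℕ × ℕ)) =
        Tset d \ (↑(R ∪ Corner d h) : Set (ℕ × ℕ)) := by
      ext ⟨i, l⟩
      rw [Set.mem_sdiff, Set.mem_sdiff, Finset.mem_coe, Finset.mem_coe, Finset.mem_coe,
        Finset.mem_union, mem_Mcut, mem_Corner, mem_Tset]
      simp only
      constructor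
      · rintro ⟨⟨h6, h7⟩, h8⟩
        refine ⟨h6, ?_⟩
        rintro (h9 | h9)
        · exact h8 h9
        · omega
      · rintro ⟨h6, h7⟩
        refine ⟨⟨h6, ?_⟩, fun h9 => h7 (Or.inl h9)⟩
        by_contra h10
        exact h7 (Or.inr ⟨h6, not_lt.1 h10⟩)
    rw [hset]
    refine h5 ?_
    rw [← coe_Lfin h1 h2]
    rw [hRc] at h4
    exact hN κ t' j h1 h2 h4

theorem sum_choose_le {ι : Type} [Fintype ι] (w : ι → ℕ) (p : ι → Prop) [DecidablePred p] :
    (∑ a, if p a then w a * (w a + 1) else 0) ≤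
      (∑ a, if p a then w a else 0) * ((∑ a, if p a then w a else 0) + 1) := by
  rw [Finset.sum_mul]
  refine Finset.sum_le_sum fun a ha => ?_
  split_ifs with h
  · have h1 : (if p a then w a else 0) ≤ ∑ a, if p a then w a else 0 :=
      Finset.single_le_sum (f := fun a => if p a then w a else 0)
        (fun _ _ => Nat.zero_le _) ha
    rw [if_pos h] at h1
    exact Nat.mul_le_mul_left _ (by omega)
  · simp

/-- Exact ranks near the critical degree. -/
theorem rank3B (K : Type) [Field K] [CharZero K] (k₀ m : ℕ) (hk₀ : 0 < k₀) (hkm : k₀ ≤ m)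
    (hm2 : 2 ≤ m) (ι : Type) [Fintype ι] (w : ι → ℕ) (σ : ℕ)
    (hσ : (∑ a, if m < w a then w a else 0) ≤ σ) (d h m₀ : ℕ) (hd : d + 1 = h + m₀)
    (hh : (m + 2) * (2 * (m * m) + 4 * m + 3 + σ) ≤ h)
    (htail : (∑ a, if w a < k₀ then w a * (w a + 1) else 0) + 2 * Fq m ≤ m * Fq m)
    (hN1 : 2 * (Mcut d h).card < 2 * Aw w + k₀ * (k₀ + 1))
    (hN2 : 2 * Aw w < 2 * (Mcut d h).card + k₀ * (k₀ + 1))
    (hfr : m * (m + 1) * (m + 2) + 2 * (k₀ * (k₀ + 1)) + 2 * ((m + 1) * (2 * m + 3)) ≤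
      Nat.card {a // w a = k₀} * (k₀ * (k₀ + 1))) :
    RkS (PF K w) (↑(Mcut d h) : Set (ℕ × ℕ)) (min (Mcut d h).card (Aw w)) := by
  classical
  obtain ⟨c, hc⟩ : ∃ c, c = (k₀ + 1).choose 2 := ⟨_, rfl⟩
  have hc2 : 2 * c = k₀ * (k₀ + 1) := by rw [hc]; exact two_choose' k₀
  have hc0 : 0 < c := by rw [hc]; exact Nat.choose_pos (by omega)
  have hcm : k₀ * (k₀ + 1) ≤ m * (m + 1) := Nat.mul_le_mul hkm (by omega)
  have hcard : Nat.card {a // w a = k₀} = (Finset.univ.filter fun a => w a = k₀).card := by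
    rw [Nat.card_eq_fintype_card, Fintype.card_subtype]
  rw [hcard, ← hc2] at hfr
  rw [← hc2] at hN1 hN2 hcm
  have e1 : (Finset.univ.filter fun a => w a = k₀).card * (2 * c) =
      2 * ((Finset.univ.filter fun a => w a = k₀).card * c) := by ring
  rw [e1] at hfr
  obtain ⟨base, hbase⟩ : ∃ base, base = ∑ a ∈ Finset.univ.filter (fun a => w a < k₀),
    (w a + 1).choose 2 := ⟨_, rfl⟩
  have hbase2 : 2 * base = ∑ a, if w a < k₀ then w a * (w a + 1) else 0 := by
    rw [hbase, Finset.mul_sum, Finset.sum_filter]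
    refine Finset.sum_congr rfl fun a _ => ?_
    split_ifs
    · exact two_choose' _
    · rfl
  rw [← hbase2] at htail
  obtain ⟨big, hbig⟩ : ∃ big, big = ∑ a ∈ Finset.univ.filter (fun a => m < w a),
    (w a + 1).choose 2 := ⟨_, rfl⟩
  have hbig2 : 2 * big ≤ σ * (σ + 1) := by
    have h1 : 2 * big = ∑ a, if m < w a then w a * (w a + 1) else 0 := by
      rw [hbig, Finset.mul_sum, Finset.sum_filter]
      refine Finset.sum_congr rfl fun a _ => ?_
      split_ifs
      · exact two_choose' _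
      · rfl
    rw [h1]
    exact (sum_choose_le w fun a => m < w a).trans (Nat.mul_le_mul hσ (by omega))
  obtain ⟨S', hS', hS1, hS2⟩ := card_tail w k₀ c ((m + 1) * (2 * m + 3)) hc0 (by omega) base
  -- the small part of `S`
  obtain ⟨S₁, hS₁⟩ : ∃ S₁, S₁ = Finset.univ.filter (fun a => w a < k₀) ∪ S' := ⟨_, rfl⟩
  obtain ⟨S, hS⟩ : ∃ S, S = S₁ ∪ Finset.univ.filter (fun a => m < w a) := ⟨_, rfl⟩
  have hdisj : Disjoint (Finset.univ.filter (fun a => w a < k₀)) S' := by
    rw [Finset.disjoint_left]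
    intro a ha ha'
    have h1 := (Finset.mem_filter.1 ha).2
    have h2 := (Finset.mem_filter.1 (hS' ha')).2
    omega
  have hS₁le : ∀ a ∈ S₁, w a ≤ m := by
    intro a ha
    rw [hS₁, Finset.mem_union] at ha
    rcases ha with ha | ha
    · have := (Finset.mem_filter.1 ha).2
      omega
    · have := (Finset.mem_filter.1 (hS' ha)).2
      omega
  have hdisj2 : Disjoint S₁ (Finset.univ.filter (fun a => m < w a)) := by
    rw [Finset.disjoint_left]
    intro a ha ha'
    have h1 := (Finset.mem_filter.1 ha').2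
    have h2 := hS₁le a ha
    omega
  have hSin : ∀ a, a ∉ S → k₀ ≤ w a ∧ w a ≤ m := by
    intro a ha
    constructor
    · by_contra hlt
      apply ha
      rw [hS, hS₁, Finset.mem_union, Finset.mem_union, Finset.mem_filter]
      exact Or.inl (Or.inl ⟨Finset.mem_univ _, not_le.1 hlt⟩)
    · by_contra hlt
      apply ha
      rw [hS, Finset.mem_union]
      exact Or.inr (Finset.mem_filter.2 ⟨Finset.mem_univ _, not_le.1 hlt⟩)
  obtain ⟨A₁, hA₁⟩ : ∃ A₁, A₁ = ∑ a ∈ S₁, (w a + 1).choose 2 := ⟨_, rfl⟩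
  have hA₁' : A₁ = base + S'.card * c := by
    rw [hA₁, hS₁, Finset.sum_union hdisj, ← hbase]
    congr 1
    rw [Finset.sum_congr rfl (g := fun _ => c) (fun a ha => by
      rw [(Finset.mem_filter.1 (hS' ha)).2, hc]), Finset.sum_const, smul_eq_mul]
  obtain ⟨A, hA⟩ : ∃ A, A = Aw (fun a : {a // a ∈ S} => w a) := ⟨_, rfl⟩
  have hA' : A = A₁ + big := by
    rw [hA]
    unfold Aw
    rw [Finset.sum_coe_sort S (fun a => (w a + 1).choose 2), hS, Finset.sum_union hdisj2, ← hA₁,
      ← hbig]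
  have hnum := num1 hm2 htail
  have h2A : 2 * A₁ + m * m * m + 2 * m + 4 ≤
      (2 * (m * m) + 2 * m) * (2 * (m * m) + 2 * m + 1) := by omega
  have hsplit := Aw_split w S
  obtain ⟨A₂, hA₂⟩ : ∃ A₂, A₂ = Aw (fun a : {a // a ∉ S} => w a) := ⟨_, rfl⟩
  rw [← hA, ← hA₂] at hsplit
  -- the slope
  obtain ⟨δ, e, hδe, he, hpar⟩ := choose_delta (m + 2) h (Fintype.card {a // a ∉ S})
    (by omega)
  have hδ : 2 * (m * m) + 4 * m + 3 + σ ≤ δ := by
    have h1 : (m + 2) * (2 * (m * m) + 4 * m + 3 + σ) ≤ (m + 2) * δ := by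
      rw [mul_comm (m + 2) δ]
      omega
    exact Nat.le_of_mul_le_mul_left h1 (by omega)
  obtain ⟨b, hb⟩ : ∃ b, δ = b + e := ⟨δ - e, by omega⟩
  have hbm : 2 * (m * m) + 2 * m + σ ≤ b := by omega
  have hhb : h = δ * (m + 1) + b := by
    have : δ * (m + 2) = δ * (m + 1) + δ := by ring
    omega
  obtain ⟨c₀, hc₀⟩ : ∃ c₀, b = c₀ + 1 + σ := ⟨b - σ - 1, by
    have : 0 < m * m := by positivity
    omega⟩
  have hc₀m : 2 * (m * m) + 2 * m ≤ c₀ + 1 := by omega
  have hbb : (2 * (m * m) + 2 * m) * (2 * (m * m) + 2 * m + 1) ≤ (c₀ + 1) * (c₀ + 1 + 1) :=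
    Nat.mul_le_mul hc₀m (by omega)
  -- independence of the points of `S`
  have hSrk : RkS (PF K (fun a : {a // a ∈ S} => w a)) (Tset (b - 1)) A := by
    have h3c := three_choose m
    have hb2 : 2 * (c₀ + 1 + 1).choose 2 = (c₀ + 1) * (c₀ + 1 + 1) := two_choose' (c₀ + 1)
    have hAs : Aw (fun a : {a : {a // a ∈ S} // ¬ m < w a} => w a) = A₁ := by
      unfold Aw
      rw [hA₁, ← Finset.sum_subtype (Finset.univ.filter fun a : {a // a ∈ S} => ¬ m < w a)
        (by simp) (fun a : {a // a ∈ S} => (w a + 1).choose 2), Finset.sum_filter,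
        Finset.sum_coe_sort S (fun a => if ¬ m < w a then (w a + 1).choose 2 else 0),
        ← Finset.sum_filter]
      refine Finset.sum_congr ?_ fun _ _ => rfl
      ext a
      rw [Finset.mem_filter, hS, Finset.mem_union, Finset.mem_filter]
      constructor
      · rintro ⟨h1 | h1, h2⟩
        · exact h1
        · exact absurd h1.2 h2
      · intro h1
        exact ⟨Or.inl h1, not_lt.2 (hS₁le a h1)⟩
    have h1 := ranks_ι (K := K) (fun a : {a : {a // a ∈ S} // ¬ m < w a} => w a) m c₀ (by omega)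
      (fun a => not_lt.1 a.2) (big_b hm2 hc₀m) (by
        rw [hAs, show c₀ + 2 = c₀ + 1 + 1 from rfl]
        have h4 : 2 * (m + 1).choose 3 ≤ m * m * m := by omega
        omega)
    have h2 := add_big K m _ {a // a ∈ S} (fun a => w a) c₀ rfl h1
    rw [← hA] at h2
    refine h2.mono ?_
    intro p hp
    have hp' : p.1 + p.2 ≤ c₀ + ∑ a : {a // a ∈ S}, if m < w a then w a else 0 := hp
    have hs : (∑ a : {a // a ∈ S}, if m < w a then w a else 0) ≤ σ := by
      rw [Finset.sum_coe_sort S (fun a => if m < w a then w a else 0)]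
      exact (Finset.sum_le_sum_of_subset (Finset.subset_univ _)).trans hσ
    have : p.1 + p.2 ≤ b - 1 := by omega
    exact this
  have hee : e * e = e + 2 * (e.choose 2) := by
    rcases e with _ | e
    · rfl
    · have := two_choose' e
      have h2 : (e + 1) * (e + 1) = e * (e + 1) + (e + 1) := by ring
      omega
  have hege : 2 * e.choose 2 ≤ 2 * ((m + 1) * (2 * m + 3)) := by
    have h3 : 2 * e.choose 2 ≤ (2 * m + 3) * (2 * m + 2) := by
      rcases e with _ | e
      · simp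
      · have h4 := two_choose' e
        rw [h4]
        rw [mul_comm e]
        exact Nat.mul_le_mul (by omega) (by omega)
    have h4 : (2 * m + 3) * (2 * m + 2) = 2 * ((m + 1) * (2 * m + 3)) := by ring
    omega
  obtain ⟨g, hg⟩ : ∃ g, A + e * m₀ = g + e.choose 2 := ⟨A + e * m₀ - e.choose 2, by omega⟩
  -- the sizes
  have hcb := cnt_add b (b + m₀)
  rw [YY_zero (show b ≤ b + m₀ by omega), add_zero] at hcb
  have hccb := cc_two b
  have hbb2 : b * (b + m₀) = b * b + b * m₀ := by ring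
  have hbbσ : b * b + b = (c₀ + 1) * (c₀ + 1 + 1) + σ * (σ + 1) + 2 * ((c₀ + 1) * σ) := by
    rw [hc₀]; ring
  have hcntA : 2 * (A + (m + 1) + 1) ≤ 2 * cnt b (b + m₀) := by
    have h1 : 0 ≤ (c₀ + 1) * σ := Nat.zero_le _
    have h2 : 0 ≤ b * m₀ := Nat.zero_le _
    have h3 : 0 ≤ m * m * m := Nat.zero_le _
    omega
  obtain ⟨N₀, hN₀⟩ : ∃ N₀, (Mcut d h).card = A + N₀ := by
    refine ⟨(Mcut d h).card - A, ?_⟩
    have h1 : A ≤ (Mcut d h).card := by
      have h3 := card_Mcut d m₀ h hd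
      have h4 := two_choose' m₀
      have h5 := R3h.two_choose' d
      have h6 : (h + m₀) * (h + m₀ + 1) = h * (h + 1) + m₀ * (m₀ + 1) + 2 * (h * m₀) := by ring
      have h7 : (d + 1) * (d + 2) = (h + m₀) * (h + m₀ + 1) := by
        rw [← hd]
      have h8 : b * (b + 1) ≤ h * (h + 1) := Nat.mul_le_mul (by omega) (by omega)
      have h9 : b * (b + 1) = b * b + b := by ring
      have h10 : 0 ≤ (c₀ + 1) * σ := Nat.zero_le _
      have h11 : 0 ≤ m * m * m := Nat.zero_le _
      have h12 : 0 ≤ h * m₀ := Nat.zero_le _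
      omega
    omega
  have hmin : min (Mcut d h).card (Aw w) = A + min N₀ A₂ := by omega
  rw [hmin]
  have hδδ : δ ≤ δ * δ := Nat.le_mul_of_pos_left _ (by omega)
  refine placeB K w S d δ (m + 1) b e g A m₀ h (by omega) (by omega) (by omega) hb hhb hd
    (by omega) hA hSrk (by omega) (by omega) _ ?_
  intro κ t' j h1 h2 h4
  have hsz : sz (δ * δ + 2 * κ) (m + 1) t' j = 2 * N₀ := by
    have h5 := R3h.two_choose' d
    have h6 := card_Mcut d m₀ h hd
    have h7 := two_choose' m₀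
    omega
  rw [hA₂]
  refine t_x K k₀ m hk₀ hkm {a // a ∉ S} (fun a => w a) (fun a => hSin a.1 a.2)
    _ N₀ (δ * δ + 2 * κ) (m + 1) t' j rfl (by omega) ⟨h1, h2, by omega⟩ hsz ?_ ?_ ?_ ?_ ?_
  · rw [← hsz]
    unfold sz
    have h5 : (δ * δ + 2 * κ) * (m * (m + 1)) ≤ (δ * δ + 2 * κ) * (m + 1) * (m + 1 + 1) := by
      rw [mul_assoc]
      refine Nat.mul_le_mul_left _ ?_
      rw [mul_comm m (m + 1)]
      exact Nat.mul_le_mul_left _ (by omega)
    omega
  · rw [← hpar]
    have h5 : (δ * δ) % 2 = δ % 2 := by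
      rcases Nat.mod_two_eq_zero_or_one δ with h | h <;> simp [Nat.mul_mod, h]
    omega
  · rw [← hA₂, ← hc2]
    omega
  · rw [← hA₂, ← hc2]
    omega
  · -- the frequency
    rw [← hc2]
    have h5 : (Finset.univ.filter fun a => w a = k₀).card - S'.card ≤
        Nat.card {a : {a // a ∉ S} // w a = k₀} := by
      rw [← Finset.card_sdiff_of_subset hS', ← Fintype.card_coe, ← Nat.card_eq_fintype_card]
      refine Nat.card_le_card_of_injective (fun a => ⟨⟨a.1, ?_⟩, ?_⟩) ?_
      · have h6 := Finset.mem_sdiff.1 a.2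
        have h7 := (Finset.mem_filter.1 h6.1).2
        rw [hS, hS₁, Finset.mem_union, Finset.mem_union, Finset.mem_filter, Finset.mem_filter]
        rintro ((h8 | h8) | h8)
        · omega
        · exact h6.2 h8
        · omega
      · have h6 := Finset.mem_sdiff.1 a.2
        exact (Finset.mem_filter.1 h6.1).2
      · intro a b hab
        have h8 := congrArg (fun t => (t.1.1 : ι)) hab
        exact Subtype.ext h8
    have h6 := Nat.mul_le_mul_right (2 * c) h5
    have h7 : ((Finset.univ.filter fun a => w a = k₀).card - S'.card) * (2 * c) =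
        2 * ((Finset.univ.filter fun a => w a = k₀).card * c) - 2 * (S'.card * c) := by
      rw [Nat.sub_mul]
      have e2 : (Finset.univ.filter fun a => w a = k₀).card * (2 * c) =
        2 * ((Finset.univ.filter fun a => w a = k₀).card * c) := by ring
      have e3 : S'.card * (2 * c) = 2 * (S'.card * c) := by ring
      rw [e2, e3]
    omega

end Pool.Agent.W608
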