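import Mathlib
import Pool.Agent.W608.BigRank3

set_option autoImplicit false

/-!
# Exact ranks in every large degree, with one arbitrary multiplicity and a bounded sum of large ones
-/

namespace Pool.Agent.W608

open Polynomial Pool.Agent.H932R2 Pool.Agent.H932R3 Pool.Agent.H932R7

theorem num4 {m σ h : ℕ} (hm : 2 ≤ m) (hh : (m + 2) * (2 * (m * m) + 4 * m + 3 + σ) ≤ h) :
    m * Fq m + Fq m * (m * (m + 1)) + σ * (σ + 1) + m * (m + 1) < h * (h + 1) := by
  have h1 : ((m + 2) * (2 * (m * m) + 4 * m + 3 + σ)) *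
      ((m + 2) * (2 * (m * m) + 4 * m + 3 + σ)) ≤ h * h := Nat.mul_le_mul hh hh
  have h2 : h * (h + 1) = h * h + h := by ring
  have h3 : ((m + 2) * (2 * (m * m) + 4 * m + 3)) * ((m + 2) * (2 * (m * m) + 4 * m + 3)) +
      σ * (σ + 1) ≤ ((m + 2) * (2 * (m * m) + 4 * m + 3 + σ)) *
      ((m + 2) * (2 * (m * m) + 4 * m + 3 + σ)) := by
    have e1 : ((m + 2) * (2 * (m * m) + 4 * m + 3 + σ)) *
      ((m + 2) * (2 * (m * m) + 4 * m + 3 + σ)) =
      ((m + 2) * (2 * (m * m) + 4 * m + 3)) * ((m + 2) * (2 * (m * m) + 4 * m + 3)) +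
      (σ * (σ * ((m + 2) * (m + 2))) +
        σ * (2 * ((m + 2) * ((m + 2) * (2 * (m * m) + 4 * m + 3))))) := by
      ring
    rw [e1]
    have h4 : 1 ≤ (m + 2) * (m + 2) := Nat.mul_pos (by omega) (by omega)
    have h5 : σ * 1 ≤ σ * ((m + 2) * (m + 2)) := Nat.mul_le_mul_left _ h4
    have h6 : 1 ≤ 2 * ((m + 2) * ((m + 2) * (2 * (m * m) + 4 * m + 3))) := by
      have : 0 < (m + 2) * ((m + 2) * (2 * (m * m) + 4 * m + 3)) := by positivity
      omega
    have h7 : σ * σ ≤ σ * (σ * ((m + 2) * (m + 2))) := Nat.mul_le_mul_left _ (by omega)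
    have h8 : σ * 1 ≤ σ * (2 * ((m + 2) * ((m + 2) * (2 * (m * m) + 4 * m + 3)))) :=
      Nat.mul_le_mul_left _ h6
    have h9 : σ * (σ + 1) = σ * σ + σ * 1 := by ring
    omega
  have h4 : m * Fq m + Fq m * (m * (m + 1)) + m * (m + 1) <
      ((m + 2) * (2 * (m * m) + 4 * m + 3)) * ((m + 2) * (2 * (m * m) + 4 * m + 3)) := by
    unfold Fq
    obtain ⟨u, rfl⟩ : ∃ u, m = u + 2 := ⟨m - 2, by omega⟩
    have e2 : ((u + 2 + 2) * (2 * ((u + 2) * (u + 2)) + 4 * (u + 2) + 3)) *
        ((u + 2 + 2) * (2 * ((u + 2) * (u + 2)) + 4 * (u + 2) + 3)) =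
        (u + 2) * ((u + 2 + 1) * (2 * ((u + 2) * (u + 2)) + 10 * (u + 2) + 6)) +
        (u + 2 + 1) * (2 * ((u + 2) * (u + 2)) + 10 * (u + 2) + 6) * ((u + 2) * (u + 2 + 1)) +
        (u + 2) * (u + 2 + 1) + 1 +
        (4953 + 8863 * u + 6706 * u ^ 2 + 2736 * u ^ 3 + 632 * u ^ 4 + 78 * u ^ 5 + 4 * u ^ 6) := by
      ring
    rw [e2]
    omega
  omega

open R4h in
theorem rank4B (K : Type) [Field K] [CharZero K] (k₀ m : ℕ) (hk₀ : 0 < k₀) (hkm : k₀ ≤ m)
    (hm2 : 2 ≤ m) (n : ℕ) (w : Fin n → ℕ) (σ : ℕ)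
    (hσ : (∑ a, if m < w a then w a else 0) ≤ σ) (d h m₀ : ℕ) (hd : d + 1 = h + m₀)
    (hh : (m + 2) * (2 * (m * m) + 4 * m + 3 + σ) ≤ h)
    (htail : (∑ a, if w a < k₀ then w a * (w a + 1) else 0) + 2 * Fq m ≤ m * Fq m)
    (hfr : Fq m ≤ Nat.card {a // w a = k₀} * (k₀ * (k₀ + 1)))
    (hW : 2 * Aw w < 2 * (Mcut d h).card + m * (m + 1)) :
    RkS (PF K w) (↑(Mcut d h) : Set (ℕ × ℕ)) (min (Mcut d h).card (Aw w)) := by
  classical
  have : Infinite K := CharZero.infinite K
  have hc := R4h.two_choose k₀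
  have hq : 0 < k₀ * (k₀ + 1) := by positivity
  have hqm : k₀ * (k₀ + 1) ≤ m * (m + 1) := Nat.mul_le_mul hkm (by omega)
  rw [Fq_eq] at hfr
  obtain ⟨q, hqd⟩ : ∃ q, q = k₀ * (k₀ + 1) := ⟨_, rfl⟩
  obtain ⟨n₀, hn₀⟩ : ∃ n₀, n₀ = Nat.card {a // w a = k₀} := ⟨_, rfl⟩
  obtain ⟨c, hcd⟩ : ∃ c, c = (k₀ + 1).choose 2 := ⟨_, rfl⟩
  obtain ⟨N, hN⟩ : ∃ N, N = (Mcut d h).card := ⟨_, rfl⟩
  rw [← hqd] at hq hqm hc
  rw [← hqd, ← hn₀] at hfr
  rw [← hcd] at hc
  rw [← hN] at hW ⊢
  rcases Nat.le_total (Aw w) N with hAN | hNA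
  · obtain ⟨x, hx⟩ : ∃ x, x = 2 * (N - Aw w) / q := ⟨_, rfl⟩
    have hx1 : x * q ≤ 2 * (N - Aw w) := by
      rw [hx]
      exact Nat.div_mul_le_self _ _
    have hx2 : 2 * (N - Aw w) < (x + 1) * q := by
      rw [hx]
      exact (Nat.div_lt_iff_lt_mul hq).1 (Nat.lt_succ_self _)
    have hA := Aw_sum w x k₀
    rw [← hcd] at hA
    have hcard := card_sum w x k₀ hk₀
    rw [← hn₀] at hcard
    have h2 : 2 * (x * c) = x * q := by rw [← hc]; ring
    have hx3 : (x + 1) * q = x * q + q := by ring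
    have h := rank3B K k₀ m hk₀ hkm hm2 ({a : Fin n // w a ≠ 0} ⊕ Fin x)
      (Sum.elim (fun a : {a : Fin n // w a ≠ 0} => w a) (fun _ : Fin x => k₀)) σ
      (by
        rw [Fintype.sum_sum_type]
        have h3 := sum_sub_le (fun a : Fin n => w a ≠ 0)
          (fun a => if m < w a then w a else 0)
        have h4 : (∑ b : Fin x, if m < Sum.elim (fun a : {a : Fin n // w a ≠ 0} => w a)
            (fun _ : Fin x => k₀) (Sum.inr b) then
            Sum.elim (fun a : {a : Fin n // w a ≠ 0} => w a) (fun _ : Fin x => k₀)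
              (Sum.inr b) else 0) = 0 :=
          Finset.sum_eq_zero fun b _ => if_neg (by
            rw [Sum.elim_inr]
            omega)
        rw [h4, add_zero]
        exact h3.trans hσ) d h m₀ hd hh
      (by
        rw [Fintype.sum_sum_type]
        have h3 := sum_sub_le (fun a : Fin n => w a ≠ 0)
          (fun a => if w a < k₀ then w a * (w a + 1) else 0)
        have h4 : (∑ b : Fin x, if Sum.elim (fun a : {a : Fin n // w a ≠ 0} => w a)
            (fun _ : Fin x => k₀) (Sum.inr b) < k₀ then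
            Sum.elim (fun a : {a : Fin n // w a ≠ 0} => w a) (fun _ : Fin x => k₀) (Sum.inr b) *
              (Sum.elim (fun a : {a : Fin n // w a ≠ 0} => w a) (fun _ : Fin x => k₀)
                (Sum.inr b) + 1) else 0) = 0 :=
          Finset.sum_eq_zero fun b _ => if_neg (lt_irrefl _)
        rw [h4, add_zero]
        exact le_trans (Nat.add_le_add_right h3 _) htail)
      (by rw [hA, ← hN, ← hqd]; omega) (by rw [hA, ← hN, ← hqd]; omega)
      (by
        rw [← hqd]
        refine le_trans ?_ (Nat.mul_le_mul_right q hcard)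
        omega)
    rw [← hN, min_eq_right (by rw [hA]; omega)] at h
    rw [min_eq_right hAN]
    exact (t_tr K (Fin n) ({a : Fin n // w a ≠ 0} ⊕ Fin x) w
      (Sum.elim (fun a : {a : Fin n // w a ≠ 0} => w a) (fun _ : Fin x => k₀))
      ⟨Sum.inl, Sum.inl_injective⟩ (fun a => le_refl _) (Mcut d _)).1 h
  · obtain ⟨x, hx⟩ : ∃ x, x = 2 * (Aw w - N) / q := ⟨_, rfl⟩
    have hx1 : x * q ≤ 2 * (Aw w - N) := by
      rw [hx]
      exact Nat.div_mul_le_self _ _
    have hx2 : 2 * (Aw w - N) < (x + 1) * q := by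
      rw [hx]
      exact (Nat.div_lt_iff_lt_mul hq).1 (Nat.lt_succ_self _)
    have hx3 : (x + 1) * q = x * q + q := by ring
    have hmm : m * (m + 1) ≤ m * (m + 1) * (m + 2) := Nat.le_mul_of_pos_right _ (by omega)
    have hxn : x ≤ n₀ := by
      by_contra hcon
      have h1 := Nat.mul_le_mul_right q (not_le.1 hcon).le
      omega
    have e1 : n₀ = (Finset.univ.filter fun a => w a = k₀).card := by
      rw [hn₀, Nat.card_eq_fintype_card, Fintype.card_subtype]
    obtain ⟨S, hS1, hS2⟩ := Finset.exists_subset_card_eq (hxn.trans e1.le)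
    have hS : ∀ a ∈ S, w a = k₀ := fun a ha => (Finset.mem_filter.1 (hS1 ha)).2
    have hA := Aw_rem w S k₀ hS
    rw [← hcd, hS2] at hA
    have hcard := card_rem w S k₀ hk₀ hS
    rw [← hn₀, hS2] at hcard
    have h2 : 2 * (x * c) = x * q := by rw [← hc]; ring
    have h := rank3B K k₀ m hk₀ hkm hm2 {a : Fin n // w a ≠ 0 ∧ a ∉ S}
      (fun a : {a : Fin n // w a ≠ 0 ∧ a ∉ S} => w a) σ
      ((sum_sub_le (fun a : Fin n => w a ≠ 0 ∧ a ∉ S)
          (fun a => if m < w a then w a else 0)).trans hσ) d h m₀ hd hh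
      (by
        have h3 := sum_sub_le (fun a : Fin n => w a ≠ 0 ∧ a ∉ S)
          (fun a => if w a < k₀ then w a * (w a + 1) else 0)
        omega)
      (by rw [← hN, ← hqd]; omega) (by rw [← hN, ← hqd]; omega)
      (by
        rw [← hqd]
        have hcard' : n₀ - x ≤
          Nat.card {b : {a : Fin n // w a ≠ 0 ∧ a ∉ S} // w b = k₀} := by omega
        refine le_trans ?_ (Nat.mul_le_mul_right q hcard')
        rw [Nat.sub_mul]
        omega)
    rw [← hN, min_eq_left (by omega)] at h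
    rw [min_eq_left hNA]
    exact (t_tr K {a : Fin n // w a ≠ 0 ∧ a ∉ S} (Fin n)
      (fun a : {a : Fin n // w a ≠ 0 ∧ a ∉ S} => w a) w
      ⟨fun a => (a.1.1 : Fin n), fun a b hab => Subtype.ext (Subtype.ext hab)⟩
      (fun a => le_refl _) (Mcut d _)).2 _ h

theorem two_card_Mcut {d h m₀ : ℕ} (hd : d + 1 = h + m₀) :
    h * (h + 1) ≤ 2 * (Mcut d h).card := by
  have h3 := card_Mcut d m₀ h hd
  have h4 := two_choose' m₀
  have h5 := R3h.two_choose' d
  have h6 : (h + m₀) * (h + m₀ + 1) = h * (h + 1) + m₀ * (m₀ + 1) + 2 * (h * m₀) := by ring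
  have h7 : (d + 1) * (d + 2) = (h + m₀) * (h + m₀ + 1) := by
    rw [← hd]
  have h8 : 0 ≤ h * m₀ := Nat.zero_le _
  omega

/-- The case of a frequent multiplicity. -/
theorem rank5core (K : Type) [Field K] [CharZero K] (m : ℕ)
    (hm2 : 2 ≤ m) (n : ℕ) (w : Fin n → ℕ) (hw1 : ∀ a, w a ≠ 1) (σ : ℕ)
    (hσ : (∑ a, if m < w a then w a else 0) ≤ σ) (d h m₀ : ℕ) (hd : d + 1 = h + m₀)
    (hh : (m + 2) * (2 * (m * m) + 4 * m + 3 + σ) ≤ h)
    (hex : ∃ k, 2 ≤ k ∧ k ≤ m ∧ Fq m ≤ Nat.card {a // w a = k} * (k * (k + 1)))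
    (hW : 2 * Aw w < 2 * (Mcut d h).card + m * (m + 1)) :
    RkS (PF K w) (↑(Mcut d h) : Set (ℕ × ℕ)) (min (Mcut d h).card (Aw w)) := by
  classical
  obtain ⟨hf1, hkm, hf2⟩ := Nat.find_spec hex
  have hfmin := fun k => Nat.find_min hex (m := k)
  obtain ⟨k₀, hk₀⟩ : ∃ k₀, k₀ = Nat.find hex := ⟨_, rfl⟩
  rw [← hk₀] at hf1 hf2 hfmin hkm
  refine rank4B K k₀ m (by omega) hkm hm2 n w σ hσ d h m₀ hd hh ?_ hf2 hW
  obtain ⟨κ, hκ⟩ : ∃ κ, k₀ = κ + 2 := ⟨k₀ - 2, by omega⟩
  have h3 := tail_bound w hw1 (Fq m) κ fun k hk hk' => by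
    by_contra h4
    exact hfmin k (by omega) ⟨hk, by omega, (not_le.1 h4).le⟩
  rw [hκ]
  have h4 : (κ + 2) * Fq m ≤ m * Fq m := Nat.mul_le_mul_right _ (by omega)
  have h5 : (κ + 2) * Fq m = κ * Fq m + 2 * Fq m := by ring
  omega

theorem two_Aw_le {n : ℕ} (w : Fin n → ℕ) (hw1 : ∀ a, w a ≠ 1) (m σ F : ℕ) (hm2 : 2 ≤ m)
    (hσ : (∑ a, if m < w a then w a else 0) ≤ σ)
    (h : ∀ k, 2 ≤ k → k ≤ m → Nat.card {a // w a = k} * (k * (k + 1)) ≤ F) :
    2 * Aw w ≤ (m - 1) * F + σ * (σ + 1) := by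
  classical
  have h1 := tail_bound w hw1 F (m - 1) fun k hk hk' => h k hk (by omega)
  have h2 := (sum_choose_le w fun a => m < w a).trans (Nat.mul_le_mul hσ (Nat.add_le_add_right hσ 1))
  have h3 : 2 * Aw w = (∑ a, if w a < m - 1 + 2 then w a * (w a + 1) else 0) +
      ∑ a, if m < w a then w a * (w a + 1) else 0 := by
    unfold Aw
    rw [Finset.mul_sum, ← Finset.sum_add_distrib]
    refine Finset.sum_congr rfl fun a _ => ?_
    rcases Nat.lt_or_ge m (w a) with h4 | h4
    · rw [if_neg (by omega), if_pos h4, zero_add, two_choose']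
    · rw [if_pos (by omega), if_neg (by omega), add_zero, two_choose']
  omega

/-- The multiplicities larger than `m` and the first `j` ones. -/
def cutw {n : ℕ} (w : Fin n → ℕ) (m j : ℕ) : Fin n → ℕ :=
  fun a => if m < w a ∨ a.1 < j then w a else 0

theorem cutw_le {n : ℕ} (w : Fin n → ℕ) (m j : ℕ) (a : Fin n) : cutw w m j a ≤ w a := by
  unfold cutw
  split_ifs <;> omega

theorem cutw_big {n : ℕ} (w : Fin n → ℕ) (m j : ℕ) :
    (∑ a, if m < cutw w m j a then cutw w m j a else 0) = ∑ a, if m < w a then w a else 0 := by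
  refine Finset.sum_congr rfl fun a _ => ?_
  unfold cutw
  by_cases h : m < w a
  · rw [if_pos (Or.inl h)]
  · rw [if_neg h]
    by_cases h2 : m < w a ∨ a.1 < j
    · rw [if_pos h2, if_neg h]
    · rw [if_neg h2, if_neg (by omega)]

theorem Aw_cutw_succ {n : ℕ} (w : Fin n → ℕ) (m j : ℕ) :
    Aw (cutw w m (j + 1)) ≤ Aw (cutw w m j) + (m + 1).choose 2 := by
  classical
  have h1 : Aw (cutw w m (j + 1)) ≤
      ∑ a : Fin n, ((cutw w m j a + 1).choose 2 + if a.1 = j then (m + 1).choose 2 else 0) := by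
    unfold Aw
    refine Finset.sum_le_sum fun a _ => ?_
    unfold cutw
    by_cases h : m < w a
    · rw [if_pos (Or.inl h), if_pos (Or.inl h)]
      exact Nat.le_add_right _ _
    · rcases Nat.lt_trichotomy a.1 j with h2 | h2 | h2
      · rw [if_pos (Or.inr (by omega)), if_pos (Or.inr h2)]
        exact Nat.le_add_right _ _
      · rw [if_pos (Or.inr (by omega)), if_neg (by omega), if_pos h2]
        have : (w a + 1).choose 2 ≤ (m + 1).choose 2 := Nat.choose_le_choose 2 (by omega)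
        omega
      · rw [if_neg (by omega), if_neg (by omega), if_neg (by omega), add_zero]
  refine h1.trans ?_
  rw [Finset.sum_add_distrib]
  refine Nat.add_le_add_left ?_ _
  rw [Finset.sum_ite, Finset.sum_const_zero, add_zero, Finset.sum_const, smul_eq_mul]
  have h2 : (Finset.univ.filter fun a : Fin n => a.1 = j).card ≤ 1 := by
    rw [Finset.card_le_one]
    intro a ha b hb
    exact Fin.ext ((Finset.mem_filter.1 ha).2.trans (Finset.mem_filter.1 hb).2.symm)
  calc _ ≤ 1 * (m + 1).choose 2 := Nat.mul_le_mul_right _ h2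
    _ = _ := one_mul _

theorem rank5B (K : Type) [Field K] [CharZero K] (m : ℕ)
    (hm2 : 2 ≤ m) (n : ℕ) (w : Fin n → ℕ) (hw1 : ∀ a, w a ≠ 1) (σ : ℕ)
    (hσ : (∑ a, if m < w a then w a else 0) ≤ σ) (d h m₀ : ℕ) (hd : d + 1 = h + m₀)
    (hh : (m + 2) * (2 * (m * m) + 4 * m + 3 + σ) ≤ h) :
    RkS (PF K w) (↑(Mcut d h) : Set (ℕ × ℕ)) (min (Mcut d h).card (Aw w)) := by
  classical
  have : Infinite K := CharZero.infinite K
  have hnum := num4 hm2 hh
  have hcard := two_card_Mcut hd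
  have hF0 : 0 < Fq m := by unfold Fq; positivity
  have hmF : (m - 1) * Fq m + Fq m = m * Fq m := by
    obtain ⟨μ, rfl⟩ : ∃ μ, m = μ + 1 := ⟨m - 1, by omega⟩
    rw [Nat.add_sub_cancel]
    ring
  rcases Nat.le_total (Aw w) (Mcut d h).card with hAN | hNA
  · by_cases hex : ∃ k, 2 ≤ k ∧ k ≤ m ∧ Fq m ≤ Nat.card {a // w a = k} * (k * (k + 1))
    · exact rank5core K m hm2 n w hw1 σ hσ d h m₀ hd hh hex (by
        have : 0 < m * (m + 1) := by positivity
        omega)
    · push Not at hex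
      have h1 := two_Aw_le w hw1 m σ (Fq m) hm2 hσ fun k hk hk' => (hex k hk hk').le
      obtain ⟨v, hv⟩ : ∃ v : Fin (n + Fq m) → ℕ, v = Fin.append w (fun _ => m) := ⟨_, rfl⟩
      have hvl : ∀ a, v (Fin.castAdd _ a) = w a := fun a => by rw [hv, Fin.append_left]
      have hvr : ∀ a, v (Fin.natAdd _ a) = m := fun a => by rw [hv, Fin.append_right]
      have hvA : 2 * Aw v = 2 * Aw w + Fq m * (m * (m + 1)) := by
        unfold Aw
        rw [Fin.sum_univ_add]
        simp only [hvl, hvr]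
        rw [Finset.sum_const, Finset.card_univ, Fintype.card_fin, smul_eq_mul, Nat.mul_add]
        have := two_choose' m
        rw [← this]
        ring
      have h2 := rank4B K m m (by omega) le_rfl hm2 (n + Fq m) v σ
        (by
          rw [Fin.sum_univ_add]
          simp only [hvl, hvr, lt_irrefl, if_false, Finset.sum_const_zero, add_zero]
          exact hσ) d h m₀ hd hh
        (by
          rw [Fin.sum_univ_add]
          simp only [hvl, hvr, lt_irrefl, if_false, Finset.sum_const_zero, add_zero]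
          obtain ⟨κ, hκ⟩ : ∃ κ, m = κ + 2 := ⟨m - 2, by omega⟩
          have h3 := tail_bound w hw1 (Fq m) κ fun k hk hk' => (hex k hk (by omega)).le
          have h5 : m * Fq m = κ * Fq m + 2 * Fq m := by rw [hκ]; ring
          have h6 : (∑ a, if w a < m then w a * (w a + 1) else 0) =
              ∑ a, if w a < κ + 2 then w a * (w a + 1) else 0 := by rw [hκ]
          rw [h6]
          omega)
        (by
          have h3 : Fq m ≤ Nat.card {a // v a = m} := by
            have h4 : Fq m = Nat.card (Fin (Fq m)) := by rw [Nat.card_eq_fintype_card,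
              Fintype.card_fin]
            calc Fq m = Nat.card (Fin (Fq m)) := h4
              _ ≤ _ := Nat.card_le_card_of_injective (fun a => ⟨Fin.natAdd n a, hvr a⟩)
                fun a b hab => by
                  have h5 := congrArg Subtype.val hab
                  exact Fin.natAdd_injective _ _ h5
          have h5 : Fq m * 1 ≤ Nat.card {a // v a = m} * (m * (m + 1)) :=
            Nat.mul_le_mul h3 (Nat.mul_pos (by omega) (by omega))
          omega)
        (by
          rw [hvA]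
          omega)
      rw [min_eq_right (by omega)] at h2
      rw [min_eq_right hAN]
      exact (t_tr K (Fin n) (Fin (n + Fq m)) w v
        ⟨fun a => Fin.castAdd _ a.1, fun a b hab =>
          Subtype.ext (Fin.castAdd_injective _ _ hab)⟩ (fun a => (hvl _).ge) (Mcut d h)).1 h2
  · have hex2 : ∃ j, (Mcut d h).card ≤ Aw (cutw w m j) := by
      refine ⟨n, ?_⟩
      have : cutw w m n = w := by
        funext a
        unfold cutw
        rw [if_pos (Or.inr a.2)]
      rw [this]
      exact hNA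
    have hj1 := Nat.find_spec hex2
    have hjmin := fun j => Nat.find_min hex2 (m := j)
    obtain ⟨j, hj⟩ : ∃ j, j = Nat.find hex2 := ⟨_, rfl⟩
    rw [← hj] at hj1 hjmin
    have hσj : ∀ j, (∑ a, if m < cutw w m j a then cutw w m j a else 0) ≤ σ := fun j => by
      rw [cutw_big]
      exact hσ
    have hw1j : ∀ j a, cutw w m j a ≠ 1 := by
      intro j a
      unfold cutw
      split_ifs
      · exact hw1 a
      · omega
    have hj0 : j ≠ 0 := by
      rintro rfl
      have h1 := two_Aw_le (cutw w m 0) (hw1j 0) m σ 0 hm2 (hσj 0) fun k hk hk' => by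
        have h2 : IsEmpty {a // cutw w m 0 a = k} := by
          constructor
          rintro ⟨a, ha⟩
          unfold cutw at ha
          split_ifs at ha with h3
          · rcases h3 with h3 | h3
            · omega
            · exact absurd h3 (Nat.not_lt_zero _)
          · omega
        rw [Nat.card_of_isEmpty, Nat.zero_mul]
      rw [Nat.mul_zero, zero_add] at h1
      have h3 : 0 ≤ m * Fq m := Nat.zero_le _
      have h4 : 0 ≤ Fq m * (m * (m + 1)) := Nat.zero_le _
      omega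
    obtain ⟨i, rfl⟩ : ∃ i, j = i + 1 := ⟨j - 1, by omega⟩
    have h1 := hjmin i (by omega)
    have h2 := Aw_cutw_succ w m i
    have h3 := two_choose' m
    have hW : 2 * Aw (cutw w m (i + 1)) < 2 * (Mcut d h).card + m * (m + 1) := by omega
    have h4 := rank5core K m hm2 n (cutw w m (i + 1)) (hw1j _) σ (hσj _) d h m₀ hd hh
      (by
        by_contra hcon
        push Not at hcon
        have h5 := two_Aw_le (cutw w m (i + 1)) (hw1j _) m σ (Fq m) hm2 (hσj _)
          fun k hk hk' => (hcon k hk hk').le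
        have h6 : 0 ≤ Fq m * (m * (m + 1)) := Nat.zero_le _
        omega) hW
    rw [min_eq_left hj1] at h4
    rw [min_eq_left hNA]
    exact (t_tr K (Fin n) (Fin n) (cutw w m (i + 1)) w
      (Function.Embedding.subtype _) (fun a => cutw_le w m _ _) (Mcut d h)).2 _ h4

/-- The ranks on the set of the monomials `i < h` of degree at most `d`. -/
theorem rank6B (K : Type) [Field K] [CharZero K] (m : ℕ)
    (hm2 : 2 ≤ m) (n : ℕ) (w : Fin n → ℕ) (σ : ℕ)
    (hσ : (∑ a, if m < w a then w a else 0) ≤ σ) (d h m₀ : ℕ) (hd : d + 1 = h + m₀)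
    (hh : (m + 2) * (2 * (m * m) + 4 * m + 3 + σ) ≤ h) :
    RkS (PF K w) (↑(Mcut d h) : Set (ℕ × ℕ)) (min (Mcut d h).card (Aw w)) := by
  classical
  have : Infinite K := CharZero.infinite K
  have hw21 : ∀ a, w2 w a ≠ 1 := by
    intro a
    unfold w2
    split_ifs with h
    · omega
    · exact h
  have hσ2 : (∑ a, if m < w2 w a then w2 w a else 0) ≤ σ := by
    refine le_trans (Finset.sum_le_sum fun a _ => ?_) hσ
    unfold w2
    split_ifs <;> omega
  have h5 := rank5B K m hm2 n (w2 w) hw21 σ hσ2 d h m₀ hd hh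
  have h6 := rk_simple T_RK (Mcut d h) h5
  have hA := Aw_w2 w
  have h7 : min (Mcut d h).card (min (Mcut d h).card (Aw (w2 w)) +
      (Finset.univ.filter fun a => w a = 1).card) = min (Mcut d h).card (Aw w) := by
    omega
  rw [h7] at h6
  exact h6

/-- The same for an arbitrary finite set of points. -/
theorem rank6B' (K : Type) [Field K] [CharZero K] (m : ℕ)
    (hm2 : 2 ≤ m) (ι : Type) [Fintype ι] (w : ι → ℕ) (σ : ℕ)
    (hσ : (∑ a, if m < w a then w a else 0) ≤ σ) (d h m₀ : ℕ) (hd : d + 1 = h + m₀)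
    (hh : (m + 2) * (2 * (m * m) + 4 * m + 3 + σ) ≤ h) :
    RkS (PF K w) (↑(Mcut d h) : Set (ℕ × ℕ)) (min (Mcut d h).card (Aw w)) := by
  classical
  have : Infinite K := CharZero.infinite K
  have e := Fintype.equivFin ι
  have hA : Aw (fun i => w (e.symm i)) = Aw w := by
    unfold Aw
    exact Fintype.sum_equiv e.symm _ _ fun _ => rfl
  have h1 := rank6B K m hm2 (Fintype.card ι) (fun i => w (e.symm i)) σ (by
    rw [Fintype.sum_equiv e.symm (fun i => if m < w (e.symm i) then w (e.symm i) else 0)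
      (fun a => if m < w a then w a else 0) (fun _ => rfl)]
    exact hσ) d h m₀ hd hh
  rw [hA] at h1
  exact (t_tr K (Fin (Fintype.card ι)) ι (fun i => w (e.symm i)) w
    ((Function.Embedding.subtype _).trans e.symm.toEmbedding) (fun a => le_refl _)
    (Mcut d h)).2 _ h1

/-- The ranks in every large degree; the multiplicity of the point `a₀` is arbitrary. -/
theorem rank7 (K : Type) [Field K] [CharZero K] (m : ℕ)
    (hm2 : 2 ≤ m) (n : ℕ) (w : Fin n → ℕ) (a₀ : Fin n) (σ : ℕ)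
    (hσ : (∑ a ∈ Finset.univ.erase a₀, if m < w a then w a else 0) ≤ σ) (d : ℕ)
    (hh : w a₀ + (m + 2) * (2 * (m * m) + 4 * m + 3 + σ) ≤ d + 1) :
    RkS (PF K w) (Tset d) (min ((d + 2).choose 2) (Aw w)) := by
  classical
  have h1 := rank6B' K m hm2 {a // a ∉ ({a₀} : Finset (Fin n))} (fun a => w a) σ
    (by
      rw [← Finset.sum_subtype (Finset.univ.erase a₀) (by simp)
        (fun a => if m < w a then w a else 0)]
      exact hσ) d (d + 1 - w a₀) (w a₀) (by omega) (by omega)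
  have h2 := cut_point K w a₀ d (w a₀) (d + 1 - w a₀) (by omega) rfl _ h1
  have h3 := card_Mcut d (w a₀) (d + 1 - w a₀) (by omega)
  have hA := Aw_split w ({a₀} : Finset (Fin n))
  have hA1 : Aw (fun a : {a // a ∈ ({a₀} : Finset (Fin n))} => w a) = (w a₀ + 1).choose 2 := by
    unfold Aw
    rw [Finset.sum_coe_sort ({a₀} : Finset (Fin n)) (fun a => (w a + 1).choose 2),
      Finset.sum_singleton]
  rw [hA1] at hA
  have h4 : (w a₀ + 1).choose 2 + min (Mcut d (d + 1 - w a₀)).card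
      (Aw (fun a : {a // a ∉ ({a₀} : Finset (Fin n))} => w a)) =
      min ((d + 2).choose 2) (Aw w) := by omega
  rw [h4] at h2
  exact h2

end Pool.Agent.W608
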