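import Mathlib
import Pool.Agent.W608.BigRank4

set_option autoImplicit false

/-!
# Expected dimension for general points, with one arbitrary multiplicity
-/

namespace Pool.Agent.W608

open Polynomial Pool.Agent.H932R2 Pool.Agent.H932R3 Pool.Agent.H932R7

/-- From exact ranks in every degree `d ≥ D` to general points. -/
theorem exp_of_ranks (L : Type) [Field L] [CharZero L] {n : ℕ}
    (w : Fin n → ℕ) (D : ℕ)
    (hrank : ∀ d, D ≤ d → RkS (PF ℚ w) (Tset d) (min ((d + 2).choose 2) (Aw w))) :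
    ∃ F : MvPolynomial (Fin n × Fin 2) ℚ, F ≠ 0 ∧ ∀ P : Fin n → Fin 2 → L,
      MvPolynomial.aeval (fun ij : Fin n × Fin 2 => P ij.1 ij.2) F ≠ 0 →
        ∀ d : ℕ, (D ≤ d ∨ (D + 2).choose 2 ≤ Aw w) → ExpDim L w P d := by
  classical
  have hex : ∃ d, D ≤ d ∧ Aw w ≤ (d + 2).choose 2 := by
    refine ⟨D + Aw w, by omega, ?_⟩
    have h1 := H932R7.two_choose (D + Aw w)
    nlinarith
  obtain ⟨hfa, hfb⟩ := Nat.find_spec hex
  have hfmin := fun d => Nat.find_min hex (m := d)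
  obtain ⟨f, hf⟩ : ∃ f, f = Nat.find hex := ⟨_, rfl⟩
  rw [← hf] at hfa hfb hfmin
  have hr1 := hrank f hfa
  rw [min_eq_right hfb] at hr1
  obtain ⟨F1, hF1, hF1'⟩ := exp_of_indep (L := L) T_HOP hr1
  obtain ⟨F2, hF2, hF2'⟩ : ∃ F : MvPolynomial (Fin n × Fin 2) ℚ, F ≠ 0 ∧
      ∀ P : Fin n → Fin 2 → L,
      MvPolynomial.aeval (fun ij : Fin n × Fin 2 => P ij.1 ij.2) F ≠ 0 →
        ∀ d : ℕ, (D ≤ d ∨ (D + 2).choose 2 ≤ Aw w) → d < f → ExpDim L w P d := by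
    rcases Nat.lt_or_ge D f with h | h
    · have h1 := hrank (f - 1) (by omega)
      have h2 := hfmin (f - 1) (by omega)
      have h3 : (f - 1 + 2).choose 2 < Aw w := by
        by_contra h4
        exact h2 ⟨by omega, by omega⟩
      rw [min_eq_left h3.le, ← card_Tfin'] at h1
      obtain ⟨F, hF, hF'⟩ := exp_of_full (L := L) T_HOP h1
      exact ⟨F, hF, fun P hP d _ hd => hF' P hP d (by omega)⟩
    · have hDf : f = D := by omega
      by_cases hA : (D + 2).choose 2 ≤ Aw w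
      · have h1 := hrank D le_rfl
        rw [min_eq_left hA, ← card_Tfin'] at h1
        obtain ⟨F, hF, hF'⟩ := exp_of_full (L := L) T_HOP h1
        exact ⟨F, hF, fun P hP d _ hd => hF' P hP d (by omega)⟩
      · exact ⟨1, one_ne_zero, fun P _ d h1 h2 => by omega⟩
  refine ⟨F1 * F2, mul_ne_zero hF1 hF2, fun P hP d hd => ?_⟩
  rw [map_mul] at hP
  rcases Nat.lt_or_ge d f with h | h
  · exact hF2' P (right_ne_zero_of_mul hP) d hd h
  · exact hF1' P (left_ne_zero_of_mul hP) d h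

/-- Expected dimension in every degree `d ≥ w a₀ + (m + 1) (2 m ^ 2 + 6 m + 5) + (m + 2) σ`. -/
theorem exp_big (L : Type) [Field L] [CharZero L] (m : ℕ) (hm2 : 2 ≤ m) {n : ℕ}
    (w : Fin n → ℕ) (a₀ : Fin n) (D : ℕ)
    (hD : w a₀ + (m + 1) * (2 * m ^ 2 + 6 * m + 5) +
      (m + 2) * (∑ a ∈ Finset.univ.erase a₀, if m < w a then w a else 0) ≤ D) :
    ∃ F : MvPolynomial (Fin n × Fin 2) ℚ, F ≠ 0 ∧ ∀ P : Fin n → Fin 2 → L,
      MvPolynomial.aeval (fun ij : Fin n × Fin 2 => P ij.1 ij.2) F ≠ 0 →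
        ∀ d : ℕ, (D ≤ d ∨ (D + 2).choose 2 ≤ Aw w) → ExpDim L w P d := by
  refine exp_of_ranks L w D fun d hd => rank7 ℚ m hm2 n w a₀ _ le_rfl d ?_
  obtain ⟨σ, hσ⟩ : ∃ σ, σ = ∑ a ∈ Finset.univ.erase a₀, if m < w a then w a else 0 := ⟨_, rfl⟩
  rw [← hσ] at hD ⊢
  have h1 : (m + 2) * (2 * (m * m) + 4 * m + 3 + σ) =
      (m + 1) * (2 * m ^ 2 + 6 * m + 5) + (m + 2) * σ + 1 := by
    ring
  omega

end Pool.Agent.W608
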